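import Mathlib

set_option autoImplicit false

namespace Pool.Agent.Helper426.Sid

/-- algebraic core of the Sidon property of quadratic curves -/
lemma et_core {p : ℤ} (hp : Prime p) (hp2 : ¬ p ∣ 2) {y1 y2 y3 y4 G c1 c2 : ℤ}
    (hsum : y1 + y2 = y3 + y4)
    (hmod : p ∣ G * (y1 ^ 2 + y2 ^ 2 - y3 ^ 2 - y4 ^ 2) + 2 * (c1 * y1 + c2 * y2 - c1 * y3 - c2 * y4))
    (h13 : |y1 - y3| < p) (h : |G * (y1 - y4) + (c1 - c2)| < p) :
    y1 = y3 ∨ G * (y1 - y4) + (c1 - c2) = 0 := by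
  have e : G * (y1 ^ 2 + y2 ^ 2 - y3 ^ 2 - y4 ^ 2) + 2 * (c1 * y1 + c2 * y2 - c1 * y3 - c2 * y4)
      = 2 * ((y1 - y3) * (G * (y1 - y4) + (c1 - c2))) := by
    have : y2 = y3 + y4 - y1 := by linarith
    subst this
    ring
  rw [e] at hmod
  rcases hp.dvd_or_dvd hmod with h2 | h2
  · exact absurd h2 hp2
  rcases hp.dvd_or_dvd h2 with h3 | h3
  · left
    have := Int.eq_zero_of_abs_lt_dvd h3 h13
    linarith
  · right
    exact Int.eq_zero_of_abs_lt_dvd h3 h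

/-- the planar curve -/
def cf (p t : ℤ) : ℤ := t + 2 * p * (t ^ 2 % p)

lemma cf_sidon {p : ℤ} (hp : Prime p) (hp0 : 0 < p) (hp2 : ¬ p ∣ 2) {t1 t2 t3 t4 : ℤ}
    (h1 : 0 ≤ t1) (h1' : t1 < p) (h2 : 0 ≤ t2) (h2' : t2 < p)
    (h3 : 0 ≤ t3) (h3' : t3 < p) (h4 : 0 ≤ t4) (h4' : t4 < p)
    (h : cf p t1 + cf p t2 = cf p t3 + cf p t4) :
    (t1 = t3 ∧ t2 = t4) ∨ (t1 = t4 ∧ t2 = t3) := by
  unfold cf at h
  set r1 := t1 ^ 2 % p with hr1
  set r2 := t2 ^ 2 % p with hr2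
  set r3 := t3 ^ 2 % p with hr3
  set r4 := t4 ^ 2 % p with hr4
  have hd : t1 + t2 - t3 - t4 = (2 * p) * (r3 + r4 - r1 - r2) := by linarith
  have h0 : t1 + t2 - t3 - t4 = 0 := by
    apply Int.eq_zero_of_abs_lt_dvd (m := 2 * p) ⟨_, hd⟩
    rw [abs_lt]; constructor <;> linarith
  have h0' : r3 + r4 - r1 - r2 = 0 := by
    rw [h0] at hd
    have : (2 * p) ≠ 0 := by positivity
    rcases mul_eq_zero.1 hd.symm with h | h
    · exact absurd h this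
    · exact h
  have e1 : p * (t1 ^ 2 / p) + r1 = t1 ^ 2 := Int.mul_ediv_add_emod _ _
  have e2 : p * (t2 ^ 2 / p) + r2 = t2 ^ 2 := Int.mul_ediv_add_emod _ _
  have e3 : p * (t3 ^ 2 / p) + r3 = t3 ^ 2 := Int.mul_ediv_add_emod _ _
  have e4 : p * (t4 ^ 2 / p) + r4 = t4 ^ 2 := Int.mul_ediv_add_emod _ _
  have hdvd : p ∣ 1 * (t1 ^ 2 + t2 ^ 2 - t3 ^ 2 - t4 ^ 2) + 2 * (0 * t1 + 0 * t2 - 0 * t3 - 0 * t4) := by
    refine ⟨t1 ^ 2 / p + t2 ^ 2 / p - t3 ^ 2 / p - t4 ^ 2 / p, ?_⟩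
    linear_combination -e1 - e2 + e3 + e4 - h0'
  rcases et_core hp hp2 (by linarith) hdvd (by rw [abs_lt]; constructor <;> linarith)
      (by rw [abs_lt]; constructor <;> linarith) with h5 | h5
  · left; exact ⟨h5, by linarith⟩
  · right; exact ⟨by linarith, by linarith⟩

lemma cf_nonneg {p t : ℤ} (hp0 : 0 < p) (ht : 0 ≤ t) : 0 ≤ cf p t := by
  unfold cf
  have := Int.emod_nonneg (t ^ 2) hp0.ne'
  positivity

lemma cf_lt {p t : ℤ} (hp0 : 0 < p) (ht' : t < p) : cf p t < 2 * p ^ 2 := by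
  unfold cf
  have := Int.emod_lt_of_pos (t ^ 2) hp0
  nlinarith

lemma cf_emod {p t : ℤ} : cf p t % p = t % p := by
  unfold cf
  have : t + 2 * p * (t ^ 2 % p) = t + p * (2 * (t ^ 2 % p)) := by ring
  rw [this, Int.add_mul_emod_self_left]

/-- The covering identity.  For every `c` there is exactly one usable lift. -/
lemma cover {p d E s h : ℤ} (hp : 0 < p) (hd : 0 < d) (hdp : d < p)
    (hh : p ∣ 2 * d * h - 1) (hE : -p ≤ E) (hE' : E < p) (hs : 0 ≤ s)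
    {M : ℤ} :
    ∃ a0 sg b0 b1 b2 : ℤ, 0 ≤ a0 ∧ a0 < p ∧ 0 ≤ sg ∧ sg < p ∧ 0 ≤ b0 ∧ b0 < p ∧ 0 ≤ b1 ∧ b1 < p ∧
      0 ≤ b2 ∧ b2 < p ∧ p ∣ 2 * d * sg - s ∧
      ∀ c : ℤ, 0 ≤ c → c ≤ M → M * s ≤ p + E →
        ∃ t t' io j : ℤ, 0 ≤ t ∧ t < p ∧ 0 ≤ t' ∧ t' < p ∧ p ∣ t' - (a0 - c * sg) ∧
          p ∣ t - (t' + d) ∧
          io = (a0 + d - c * sg) / p - (a0 - c * sg) / p ∧ (io = 0 ∨ io = 1) ∧
          j = (b0 + E - c * (b1 + s) + c ^ 2 * b2) / p - (b0 - c * b1 + c ^ 2 * b2) / p ∧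
          (j = -1 ∨ j = 0 ∨ j = 1) ∧
          cf p t - cf p t' = d - p * io + 2 * p * (E - c * s - p * j) := by
  refine ⟨((E - d ^ 2) * h) % p, (s * h) % p, (((E - d ^ 2) * h) % p) ^ 2 % p,
    (2 * (((E - d ^ 2) * h) % p) * ((s * h) % p)) % p, ((s * h) % p) ^ 2 % p,
    Int.emod_nonneg _ hp.ne', Int.emod_lt_of_pos _ hp, Int.emod_nonneg _ hp.ne',
    Int.emod_lt_of_pos _ hp, Int.emod_nonneg _ hp.ne', Int.emod_lt_of_pos _ hp,
    Int.emod_nonneg _ hp.ne', Int.emod_lt_of_pos _ hp, Int.emod_nonneg _ hp.ne',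
    Int.emod_lt_of_pos _ hp, ?_, ?_⟩
  · obtain ⟨k, hk⟩ := hh
    have e := Int.mul_ediv_add_emod (s * h) p
    refine ⟨s * k - 2 * d * ((s * h) / p), ?_⟩
    linear_combination s * hk + 2 * d * e
  intro c hc hcM hMs
  obtain ⟨k, hk⟩ := hh
  have ea0 := Int.mul_ediv_add_emod ((E - d ^ 2) * h) p
  have esg := Int.mul_ediv_add_emod (s * h) p
  set a0 := ((E - d ^ 2) * h) % p with ha0
  set qa := ((E - d ^ 2) * h) / p
  set sg := (s * h) % p with hsg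
  set qs := (s * h) / p
  have eb0 := Int.mul_ediv_add_emod (a0 ^ 2) p
  have eb1 := Int.mul_ediv_add_emod (2 * a0 * sg) p
  have eb2 := Int.mul_ediv_add_emod (sg ^ 2) p
  set b0 := a0 ^ 2 % p
  set b1 := (2 * a0 * sg) % p
  set b2 := sg ^ 2 % p
  have eA := Int.mul_ediv_add_emod (a0 - c * sg) p
  have hA0 := Int.emod_nonneg (a0 - c * sg) hp.ne'
  have hA1 := Int.emod_lt_of_pos (a0 - c * sg) hp
  set A := (a0 - c * sg) % p with hA
  set n1 := (a0 - c * sg) / p with hn1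
  set io := (A + d) / p with hio
  have ehio := Int.mul_ediv_add_emod (A + d) p
  have ht0 := Int.emod_nonneg (A + d) hp.ne'
  have ht1 := Int.emod_lt_of_pos (A + d) hp
  set t := (A + d) % p with ht
  have hio_eq : io = (a0 + d - c * sg) / p - n1 := by
    have : a0 + d - c * sg = (A + d) + p * n1 := by linarith
    rw [this, Int.add_mul_ediv_left _ _ hp.ne']
    ring
  have hio01 : io = 0 ∨ io = 1 := by
    have h1 : 0 ≤ io := Int.ediv_nonneg (by linarith) hp.le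
    have h2 : io < 2 := by
      rw [hio]
      apply Int.ediv_lt_of_lt_mul hp
      linarith
    omega
  -- squares
  have eg := Int.mul_ediv_add_emod (b0 - c * b1 + c ^ 2 * b2) p
  set g3 := b0 - c * b1 + c ^ 2 * b2 with hg3
  have hτ' : A ^ 2 % p = g3 % p := by
    apply Int.emod_emod_of_dvd _ (dvd_refl p) |>.symm.trans
    rw [Int.emod_emod_of_dvd _ (dvd_refl p)]
    apply (Int.emod_emod_of_dvd _ (dvd_refl p)).symm.trans
    rw [Int.emod_emod_of_dvd _ (dvd_refl p)]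
    apply Int.emod_eq_emod_iff_emod_sub_eq_zero.2
    apply Int.emod_eq_zero_of_dvd
    refine ⟨a0 ^ 2 / p - c * ((2 * a0 * sg) / p) + c ^ 2 * (sg ^ 2 / p) - n1 * (A + (a0 - c * sg)), ?_⟩
    rw [hg3]
    linear_combination (A + (a0 - c * sg)) * eA - eb0 + c * eb1 - c ^ 2 * eb2
  set j := (g3 % p + (E - c * s)) / p with hj
  have ej := Int.mul_ediv_add_emod (g3 % p + (E - c * s)) p
  have hj_eq : j = (b0 + E - c * (b1 + s) + c ^ 2 * b2) / p - g3 / p := by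
    have : b0 + E - c * (b1 + s) + c ^ 2 * b2 = (g3 % p + (E - c * s)) + p * (g3 / p) := by
      linear_combination -eg + hg3
    rw [this, Int.add_mul_ediv_left _ _ hp.ne']
    ring
  have hcs : c * s ≤ p + E := le_trans (mul_le_mul_of_nonneg_right hcM hs) hMs
  have hcs0 : 0 ≤ c * s := mul_nonneg hc hs
  have hg0 := Int.emod_nonneg g3 hp.ne'
  have hg1 := Int.emod_lt_of_pos g3 hp
  have hj3 : j = -1 ∨ j = 0 ∨ j = 1 := by
    have h1 : -1 ≤ j := by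
      rw [hj]
      apply Int.le_ediv_of_mul_le hp
      linarith
    have h2 : j < 2 := by
      rw [hj]
      apply Int.ediv_lt_of_lt_mul hp
      linarith
    omega
  have hτ : t ^ 2 % p = (g3 % p + (E - c * s)) % p := by
    apply Int.emod_eq_emod_iff_emod_sub_eq_zero.2
    apply Int.emod_eq_zero_of_dvd
    have eA2 := Int.mul_ediv_add_emod (A ^ 2) p
    rw [hτ'] at eA2
    refine ⟨-io * (t + (A + d)) + A ^ 2 / p + 2 * d * (-n1) + k * (E - d ^ 2 - c * s)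
      - 2 * d * qa + 2 * d * c * qs, ?_⟩
    linear_combination (t + (A + d)) * ehio + (E - d ^ 2 - c * s) * hk - eA2 + 2 * d * ea0
      - 2 * d * c * esg + 2 * d * eA
  refine ⟨t, A, io, j, ht0, ht1, hA0, hA1, ⟨-n1, by linarith⟩, ⟨-io, by linarith⟩, hio_eq, hio01,
    hj_eq, hj3, ?_⟩
  unfold cf
  rw [hτ, hτ']
  have e1 : t = A + d - p * io := by linarith
  have e2 : (g3 % p + (E - c * s)) % p = g3 % p + (E - c * s) - p * j := by linarith
  rw [e1, e2]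
  ring

end Pool.Agent.Helper426.Sid
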