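import Mathlib

set_option autoImplicit false

namespace Pool.Agent.Helper426.Sid

open Finset

/-- ground set: pairs `(c, k)` -/
abbrev Om (M V : ℕ) := Fin (M + 1) × Fin (2 * V)

/-- the integer coded by `k` -/
def kval (V : ℕ) (k : Fin (2 * V)) : ℤ := (k : ℕ) - V + 1

/-- sublevel sets of quadratic polynomials -/
noncomputable def fam (M V : ℕ) : Finset (Finset (Om M V)) := by
  classical
  exact univ.filter (fun S => ∃ x0 x1 x2 : ℝ, ∀ w : Om M V, w ∈ S ↔
    ((kval V w.2 : ℤ) : ℝ) ≤ x0 + x1 * ((w.1 : ℕ) : ℝ) + x2 * ((w.1 : ℕ) : ℝ) ^ 2)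

lemma mem_fam {M V : ℕ} {S : Finset (Om M V)} : S ∈ fam M V ↔
    ∃ x0 x1 x2 : ℝ, ∀ w : Om M V, w ∈ S ↔
    ((kval V w.2 : ℤ) : ℝ) ≤ x0 + x1 * ((w.1 : ℕ) : ℝ) + x2 * ((w.1 : ℕ) : ℝ) ^ 2 := by
  simp [fam]

/-- a sign pattern cannot be realised against a linear relation -/
lemma no_rel {M V : ℕ} (s : Finset (Om M V)) (hs : (fam M V).Shatters s)
    (g : s → ℝ) (h0 : ∑ i, g i = 0) (h1 : ∑ i, g i * ((i.1.1 : ℕ) : ℝ) = 0)
    (h2 : ∑ i, g i * ((i.1.1 : ℕ) : ℝ) ^ 2 = 0) (h3 : ∑ i, g i * ((kval V i.1.2 : ℤ) : ℝ) = 0)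
    (hpos : ∃ i, 0 < g i) : False := by
  classical
  obtain ⟨i0, hi0⟩ := hpos
  set T : Finset (Om M V) := (univ.filter (fun i : s => g i < 0)).map (Function.Embedding.subtype _) with hT
  have hTs : T ⊆ s := by
    intro x hx
    rw [hT, mem_map] at hx
    obtain ⟨y, _, rfl⟩ := hx
    exact y.2
  obtain ⟨u, hu, hsu⟩ := hs hTs
  have hmem : ∀ i : s, i.1 ∈ u ↔ g i < 0 := by
    intro i
    have : i.1 ∈ u ↔ i.1 ∈ T := by
      rw [← hsu]; simp
    rw [this, hT, mem_map]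
    constructor
    · rintro ⟨y, hy, hyi⟩
      have : y = i := Subtype.ext hyi
      subst this
      simpa using hy
    · intro h
      exact ⟨i, by simpa using h, rfl⟩
  obtain ⟨x0, x1, x2, hx⟩ := mem_fam.1 hu
  have hsum : ∑ i : s, g i * (x0 + x1 * ((i.1.1 : ℕ) : ℝ) + x2 * ((i.1.1 : ℕ) : ℝ) ^ 2
      - ((kval V i.1.2 : ℤ) : ℝ)) = 0 := by
    have : ∀ i : s, g i * (x0 + x1 * ((i.1.1 : ℕ) : ℝ) + x2 * ((i.1.1 : ℕ) : ℝ) ^ 2
      - ((kval V i.1.2 : ℤ) : ℝ)) = x0 * g i + x1 * (g i * ((i.1.1 : ℕ) : ℝ))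
        + x2 * (g i * ((i.1.1 : ℕ) : ℝ) ^ 2) - g i * ((kval V i.1.2 : ℤ) : ℝ) := by
      intro i; ring
    simp_rw [this]
    rw [sum_sub_distrib, sum_add_distrib, sum_add_distrib, ← mul_sum, ← mul_sum, ← mul_sum,
      h0, h1, h2, h3]
    ring
  have hlt : ∑ i : s, g i * (x0 + x1 * ((i.1.1 : ℕ) : ℝ) + x2 * ((i.1.1 : ℕ) : ℝ) ^ 2
      - ((kval V i.1.2 : ℤ) : ℝ)) < ∑ i : s, (0 : ℝ) := by
    apply sum_lt_sum
    · intro i _
      rcases lt_trichotomy (g i) 0 with h | h | h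
      · have := (hx i.1).1 ((hmem i).2 h)
        exact mul_nonpos_of_nonpos_of_nonneg h.le (by linarith)
      · rw [h]; simp
      · have : ¬ i.1 ∈ u := fun hh => absurd ((hmem i).1 hh) (not_lt.2 h.le)
        rw [hx] at this
        push Not at this
        exact mul_nonpos_of_nonneg_of_nonpos h.le (by linarith)
    · refine ⟨i0, mem_univ _, ?_⟩
      have : ¬ i0.1 ∈ u := fun hh => absurd ((hmem i0).1 hh) (not_lt.2 hi0.le)
      rw [hx] at this
      push Not at this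
      exact mul_neg_of_pos_of_neg hi0 (by linarith)
  rw [hsum] at hlt
  simp at hlt

lemma shatters_card {M V : ℕ} (s : Finset (Om M V)) (hs : (fam M V).Shatters s) : s.card ≤ 4 := by
  classical
  by_contra hcon
  push Not at hcon
  set v : s → (Fin 4 → ℝ) := fun i => ![1, ((i.1.1 : ℕ) : ℝ), ((i.1.1 : ℕ) : ℝ) ^ 2,
    ((kval V i.1.2 : ℤ) : ℝ)] with hv
  have hnl : ¬ LinearIndependent ℝ v := by
    intro hl
    have := hl.fintype_card_le_finrank
    simp at this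
    omega
  obtain ⟨g, hg, i, hi⟩ := Fintype.not_linearIndependent_iff.1 hnl
  have hg' : ∀ k : Fin 4, ∑ j, g j * v j k = 0 := by
    intro k
    have := congrFun hg k
    simpa [Finset.sum_apply] using this
  have e0 := hg' 0
  have e1 := hg' 1
  have e2 := hg' 2
  have e3 := hg' 3
  simp only [hv] at e0 e1 e2 e3
  simp at e0 e1 e2 e3
  rcases lt_or_gt_of_ne hi with h | h
  · refine no_rel s hs (fun j => - g j) ?_ ?_ ?_ ?_ ⟨i, by linarith⟩
    · simp [e0]
    · simp [e1]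
    · simp [e2]
    · simp [e3]
  · refine no_rel s hs g ?_ ?_ ?_ ?_ ⟨i, h⟩
    · simpa using e0
    · simpa using e1
    · simpa using e2
    · simpa using e3

lemma fam_card (M V : ℕ) : (fam M V).card ≤ 5 * ((M + 1) * (2 * V) + 1) ^ 4 := by
  classical
  have h1 := card_le_card_shatterer (fam M V)
  have h2 := card_shatterer_le_sum_vcDim (𝒜 := fam M V)
  have hd : (fam M V).vcDim ≤ 4 := by
    unfold vcDim
    apply Finset.sup_le
    intro s hs
    exact shatters_card s (mem_shatterer.1 hs)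
  have hcard : Fintype.card (Om M V) = (M + 1) * (2 * V) := by simp [Om]
  rw [hcard] at h2
  set n := (M + 1) * (2 * V)
  have h3 : ∑ k ∈ Iic (fam M V).vcDim, n.choose k ≤ ∑ k ∈ Iic 4, n.choose k :=
    sum_le_sum_of_subset (Iic_subset_Iic.2 hd)
  have h4 : ∑ k ∈ Iic 4, n.choose k ≤ ∑ k ∈ Iic 4, (n + 1) ^ 4 := by
    apply sum_le_sum
    intro k hk
    rw [mem_Iic] at hk
    calc n.choose k ≤ n ^ k := Nat.choose_le_pow n k
      _ ≤ (n + 1) ^ k := Nat.pow_le_pow_left (by omega) k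
      _ ≤ (n + 1) ^ 4 := Nat.pow_le_pow_right (by omega) hk
  have h5 : ∑ k ∈ Iic 4, (n + 1) ^ 4 = 5 * (n + 1) ^ 4 := by
    rw [sum_const]; simp
  omega

/-- union bound -/
lemma exists_hit {ι T : Type*} [Fintype ι] [DecidableEq ι] [Fintype T] [DecidableEq T]
    (hT : Fintype.card T = 9) (F : Finset (ι → T))
    (h : F.card * 8 ^ (Fintype.card ι) < 9 ^ (Fintype.card ι)) :
    ∃ g : ι → T, ∀ f ∈ F, ∃ i, g i = f i := by
  classical
  by_contra hcon
  push Not at hcon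
  have hsub : (univ : Finset (ι → T)) ⊆ F.biUnion (fun f => Fintype.piFinset (fun i => univ.erase (f i))) := by
    intro g _
    obtain ⟨f, hf, hfg⟩ := hcon g
    rw [mem_biUnion]
    refine ⟨f, hf, ?_⟩
    rw [Fintype.mem_piFinset]
    intro i
    simp [hfg i]
  have h1 := card_le_card hsub
  have h2 : (F.biUnion (fun f => Fintype.piFinset (fun i => univ.erase (f i)))).card
      ≤ F.card * 8 ^ (Fintype.card ι) := by
    apply card_biUnion_le_card_mul
    intro f _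
    rw [Fintype.card_piFinset]
    simp [hT]
  have h3 : (univ : Finset (ι → T)).card = 9 ^ (Fintype.card ι) := by
    rw [card_univ, Fintype.card_fun, hT]
  omega

end Pool.Agent.Helper426.Sid
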