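import Mathlib
import Pool.Agent.Helper426.Sid.Vc
import Pool.Agent.Helper426.Sid.Core

set_option autoImplicit false

namespace Pool.Agent.Helper426.Sid

open Finset Filter

abbrev Ty := Fin 3 × Fin 3

def toF3 (z : ℤ) : Fin 3 := ⟨(z % 3).toNat, by omega⟩

lemma toF3_val {z : ℤ} (h0 : 0 ≤ z) (h1 : z < 3) : ((toF3 z : ℕ) : ℤ) = z := by
  unfold toF3
  simp only
  omega

noncomputable def cnt {M V : ℕ} (S : Finset (Om M V)) (c : Fin (M + 1)) : ℤ :=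
  ((univ.filter (fun k : Fin (2 * V) => (c, k) ∈ S)).card : ℤ)

noncomputable def need {M V : ℕ} (S1 S2 S3 S4 : Finset (Om M V)) (π : ℕ) (c : Fin (M + 1)) : Ty :=
  (toF3 (π + (cnt S2 c - cnt S1 c)), toF3 (1 + (cnt S4 c - cnt S3 c)))

noncomputable def quadSet (M V : ℕ) (p u0 u1 u2 : ℤ) : Finset (Om M V) :=
  univ.filter (fun w => kval V w.2 ≤ (u0 + u1 * ((w.1 : ℕ) : ℤ) + u2 * ((w.1 : ℕ) : ℤ) ^ 2) / p)

lemma quadSet_mem {M V : ℕ} {p u0 u1 u2 : ℤ} (hp : 0 < p) : quadSet M V p u0 u1 u2 ∈ fam M V := by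
  rw [mem_fam]
  refine ⟨(u0 : ℝ) / p, (u1 : ℝ) / p, (u2 : ℝ) / p, ?_⟩
  intro w
  unfold quadSet
  simp only [mem_filter, mem_univ, true_and]
  rw [Int.le_ediv_iff_mul_le hp]
  have hp' : (0 : ℝ) < p := by exact_mod_cast hp
  have e : (u0 : ℝ) / p + (u1 : ℝ) / p * ((w.1 : ℕ) : ℝ) + (u2 : ℝ) / p * ((w.1 : ℕ) : ℝ) ^ 2
      = ((u0 : ℝ) + u1 * ((w.1 : ℕ) : ℝ) + u2 * ((w.1 : ℕ) : ℝ) ^ 2) / p := by
    field_simp
  rw [e, le_div_iff₀ hp']
  constructor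
  · intro h
    have : ((kval V w.2 * p : ℤ) : ℝ) ≤ ((u0 + u1 * ((w.1 : ℕ) : ℤ) + u2 * ((w.1 : ℕ) : ℤ) ^ 2 : ℤ) : ℝ) := by
      exact_mod_cast h
    push_cast at this
    linarith
  · intro h
    have : ((kval V w.2 * p : ℤ) : ℝ) ≤ ((u0 + u1 * ((w.1 : ℕ) : ℤ) + u2 * ((w.1 : ℕ) : ℤ) ^ 2 : ℤ) : ℝ) := by
      push_cast
      linarith
    exact_mod_cast this

lemma card_fin_lt (n m : ℕ) (h : m ≤ n) : (univ.filter (fun k : Fin n => (k : ℕ) < m)).card = m := by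
  have : (univ.filter (fun k : Fin n => (k : ℕ) < m)).map Fin.valEmbedding = range m := by
    ext x
    simp only [Finset.mem_map, mem_filter, mem_univ, true_and, Fin.valEmbedding_apply, mem_range]
    constructor
    · rintro ⟨k, hk, rfl⟩; exact hk
    · intro hx; exact ⟨⟨x, by omega⟩, hx, rfl⟩
  rw [← card_map Fin.valEmbedding, this, card_range]

lemma quadSet_cnt {M V : ℕ} {p u0 u1 u2 : ℤ} (hp : 0 < p) (c : Fin (M + 1))
    (h0 : -(p * V) ≤ u0 + u1 * ((c : ℕ) : ℤ) + u2 * ((c : ℕ) : ℤ) ^ 2)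
    (h1 : u0 + u1 * ((c : ℕ) : ℤ) + u2 * ((c : ℕ) : ℤ) ^ 2 ≤ p * V) :
    cnt (quadSet M V p u0 u1 u2) c = (u0 + u1 * ((c : ℕ) : ℤ) + u2 * ((c : ℕ) : ℤ) ^ 2) / p + V := by
  set F := (u0 + u1 * ((c : ℕ) : ℤ) + u2 * ((c : ℕ) : ℤ) ^ 2) / p with hF
  have hF0 : -(V : ℤ) ≤ F := by
    rw [hF]; apply Int.le_ediv_of_mul_le hp; linarith
  have hF1 : F ≤ V := by
    rw [hF]; apply Int.ediv_le_of_le_mul hp; linarith
  unfold cnt quadSet
  simp only [mem_filter, mem_univ, true_and]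
  have : (univ.filter (fun k : Fin (2 * V) => kval V k ≤ F)) =
      univ.filter (fun k : Fin (2 * V) => (k : ℕ) < (F + V).toNat) := by
    apply filter_congr
    intro k _
    unfold kval
    omega
  rw [← hF] at *
  rw [this, card_fin_lt _ _ (by omega)]
  omega

lemma growth : ∃ n : ℕ, 0 < n ∧ 2 * (5 * (3 * (74 * n ^ 2) ^ 3) ^ 4) ^ 4 * 8 ^ n < 9 ^ n := by
  have h := isLittleO_pow_const_const_pow_of_one_lt (R := ℝ) 96 (r := 9 / 8) (by norm_num)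
  set C : ℝ := 2 * (5 * (3 * 74 ^ 3) ^ 4) ^ 4 with hC
  have hCpos : 0 < C := by positivity
  have h2 := h.bound (c := 1 / (2 * C)) (by positivity)
  obtain ⟨N, hN⟩ := eventually_atTop.1 h2
  refine ⟨N + 1, by omega, ?_⟩
  have h3 := hN (N + 1) (by omega)
  set n := N + 1
  have h4 : ((n : ℝ)) ^ 96 ≤ 1 / (2 * C) * (9 / 8) ^ n := by
    simpa [Real.norm_eq_abs, abs_of_nonneg] using h3
  have h5 : C * (n : ℝ) ^ 96 < (9 / 8) ^ n := by
    have hpos : (0 : ℝ) < (9 / 8) ^ n := by positivity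
    have : C * (n : ℝ) ^ 96 ≤ C * (1 / (2 * C) * (9 / 8) ^ n) := mul_le_mul_of_nonneg_left h4 hCpos.le
    have e : C * (1 / (2 * C) * (9 / 8) ^ n) = (9 / 8) ^ n / 2 := by field_simp
    rw [e] at this
    linarith
  have h6 : C * (n : ℝ) ^ 96 * 8 ^ n < 9 ^ n := by
    have : C * (n : ℝ) ^ 96 * 8 ^ n < (9 / 8) ^ n * 8 ^ n := mul_lt_mul_of_pos_right h5 (by positivity)
    rwa [← mul_pow, show (9 / 8 * 8 : ℝ) = 9 by norm_num] at this
  have h7 : ((2 * (5 * (3 * (74 * n ^ 2) ^ 3) ^ 4) ^ 4 * 8 ^ n : ℕ) : ℝ) < ((9 ^ n : ℕ) : ℝ) := by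
    push_cast
    have : (2 : ℝ) * (5 * (3 * (74 * (n : ℝ) ^ 2) ^ 3) ^ 4) ^ 4 = C * (n : ℝ) ^ 96 := by
      rw [hC]; ring
    rw [this]
    exact h6
  exact_mod_cast h7

/-- block version: types for one block -/
lemma block_types {n M V : ℕ} (cc : Fin n → Fin (M + 1))
    (h : 2 * (fam M V).card ^ 4 * 8 ^ n < 9 ^ n) :
    ∃ g : Fin n → Ty, ∀ S1 ∈ fam M V, ∀ S2 ∈ fam M V, ∀ S3 ∈ fam M V, ∀ S4 ∈ fam M V, ∀ π < 2,
      ∃ i, g i = need S1 S2 S3 S4 π (cc i) := by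
  classical
  set I := ((fam M V ×ˢ fam M V) ×ˢ (fam M V ×ˢ fam M V)) ×ˢ range 2 with hI
  set F : Finset (Fin n → Ty) := I.image (fun P i => need P.1.1.1 P.1.1.2 P.1.2.1 P.1.2.2 P.2 (cc i)) with hF
  have hFc : F.card ≤ 2 * (fam M V).card ^ 4 := by
    refine card_image_le.trans ?_
    rw [hI]
    simp only [card_product, card_range]
    apply le_of_eq
    ring
  obtain ⟨g, hg⟩ := exists_hit (ι := Fin n) (T := Ty) (by simp [Ty]) F (by
    rw [Fintype.card_fin]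
    exact lt_of_le_of_lt (Nat.mul_le_mul_right _ hFc) h)
  refine ⟨g, ?_⟩
  intro S1 h1 S2 h2 S3 h3 S4 h4 π hπ
  apply hg
  rw [hF, mem_image]
  refine ⟨(((S1, S2), (S3, S4)), π), ?_, rfl⟩
  rw [hI]
  simp only [mem_product, mem_range]
  exact ⟨⟨⟨h1, h2⟩, ⟨h3, h4⟩⟩, hπ⟩

/-- the final packaged statement on types -/
theorem types_exist : ∃ (n M : ℕ) (cc : Fin 3 × Fin n → ℕ) (g : Fin 3 × Fin n → Ty),
    0 < n ∧ 0 < M ∧ (∀ i, cc i ≤ M) ∧
    (∀ a b c d, cc a + cc b = cc c + cc d → (a = c ∧ b = d) ∨ (a = d ∧ b = c)) ∧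
    ∀ (p a0 sg d b0 b1 b2 E s : ℤ) (π : ℕ), π < 2 → 0 < p → 0 ≤ a0 → a0 < p → 0 ≤ sg → sg < p →
      0 < d → d < p → 0 ≤ b0 → b0 < p → 0 ≤ b1 → b1 < p → 0 ≤ b2 → b2 < p → -p ≤ E → E < p →
      0 ≤ s → s < p →
      ∀ a : Fin 3, ∃ i : Fin n,
        g (a, i) = (toF3 (π + ((a0 + d - (cc (a, i) : ℤ) * sg) / p - (a0 - (cc (a, i) : ℤ) * sg) / p)),
          toF3 (1 + ((b0 + E - (cc (a, i) : ℤ) * (b1 + s) + (cc (a, i) : ℤ) ^ 2 * b2) / p
            - (b0 - (cc (a, i) : ℤ) * b1 + (cc (a, i) : ℤ) ^ 2 * b2) / p))) := by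
  obtain ⟨n, hn, hgr⟩ := growth
  obtain ⟨P, hP, hP1, hP2⟩ := Nat.exists_prime_lt_and_le_two_mul (3 * n) (by omega)
  have hPpos : (0 : ℤ) < P := by exact_mod_cast hP.pos
  have hPint : Prime (P : ℤ) := Nat.prime_iff_prime_int.1 hP
  have hP3 : 3 < P := by omega
  have hPn2 : ¬ (P : ℤ) ∣ 2 := by
    intro h
    have := Int.le_of_dvd (by norm_num) h
    omega
  set M := 2 * P ^ 2 with hM
  set V := (M + 2) ^ 2 with hV
  set idx : Fin 3 × Fin n → ℕ := fun x => (x.1 : ℕ) * n + (x.2 : ℕ) with hidx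
  have hidxlt : ∀ x, idx x < P := by
    intro x
    have h1 : (x.1 : ℕ) ≤ 2 := by omega
    have h2 : (x.2 : ℕ) < n := x.2.2
    have : (x.1 : ℕ) * n ≤ 2 * n := Nat.mul_le_mul_right n h1
    simp only [hidx]
    omega
  have hidxinj : ∀ x y, idx x = idx y → x = y := by
    intro x y hxy
    simp only [hidx] at hxy
    have h1 : (x.2 : ℕ) < n := x.2.2
    have h2 : (y.2 : ℕ) < n := y.2.2
    have e1 : (x.1 : ℕ) = (y.1 : ℕ) := by
      have : ((x.1 : ℕ) * n + (x.2 : ℕ)) / n = ((y.1 : ℕ) * n + (y.2 : ℕ)) / n := by rw [hxy]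
      rwa [Nat.mul_comm, Nat.mul_add_div hn, Nat.div_eq_of_lt h1, Nat.mul_comm, Nat.mul_add_div hn,
        Nat.div_eq_of_lt h2, Nat.add_zero, Nat.add_zero] at this
    have e2 : (x.2 : ℕ) = (y.2 : ℕ) := by rw [e1] at hxy; omega
    exact Prod.ext (Fin.ext e1) (Fin.ext e2)
  set cc : Fin 3 × Fin n → ℕ := fun x => (cf P (idx x)).toNat with hcc
  have hccval : ∀ x, ((cc x : ℕ) : ℤ) = cf P (idx x) := by
    intro x
    simp only [hcc]
    exact Int.toNat_of_nonneg (cf_nonneg hPpos (by positivity))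
  have hccle : ∀ x, cc x ≤ M := by
    intro x
    have h1 : ((cc x : ℕ) : ℤ) < 2 * (P : ℤ) ^ 2 := by
      rw [hccval]
      exact cf_lt hPpos (by exact_mod_cast hidxlt x)
    have : ((cc x : ℕ) : ℤ) < ((M : ℕ) : ℤ) := by rw [hM]; push_cast; exact h1
    omega
  -- union bound hypothesis
  have hP6 : P ≤ 6 * n := by omega
  have hMle : M + 2 ≤ 74 * n ^ 2 := by
    rw [hM]
    have : P ^ 2 ≤ (6 * n) ^ 2 := Nat.pow_le_pow_left hP6 2
    nlinarith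
  have hfam : (fam M V).card ≤ 5 * (3 * (74 * n ^ 2) ^ 3) ^ 4 := by
    refine (fam_card M V).trans ?_
    apply Nat.mul_le_mul_left
    apply Nat.pow_le_pow_left
    have h1 : (M + 1) * (2 * V) + 1 ≤ 3 * (M + 2) ^ 3 := by
      rw [hV]; nlinarith [Nat.zero_le M, Nat.zero_le (M ^ 2), Nat.zero_le (M ^ 3)]
    exact h1.trans (Nat.mul_le_mul_left 3 (Nat.pow_le_pow_left hMle 3))
  have hunion : 2 * (fam M V).card ^ 4 * 8 ^ n < 9 ^ n := by
    refine lt_of_le_of_lt ?_ hgr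
    apply Nat.mul_le_mul_right
    apply Nat.mul_le_mul_left
    exact Nat.pow_le_pow_left hfam 4
  set cF : Fin 3 × Fin n → Fin (M + 1) := fun x => ⟨cc x, by have := hccle x; omega⟩ with hcF
  have hg := fun a : Fin 3 => block_types (V := V) (fun i => cF (a, i)) hunion
  choose g hg using hg
  refine ⟨n, M, cc, fun x => g x.1 x.2, hn, by positivity, hccle, ?_, ?_⟩
  · intro a b c d habcd
    have h1 : cf P (idx a) + cf P (idx b) = cf P (idx c) + cf P (idx d) := by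
      rw [← hccval, ← hccval, ← hccval, ← hccval]; exact_mod_cast habcd
    rcases cf_sidon hPint hPpos hPn2 (by positivity) (by exact_mod_cast hidxlt a) (by positivity)
      (by exact_mod_cast hidxlt b) (by positivity) (by exact_mod_cast hidxlt c) (by positivity)
      (by exact_mod_cast hidxlt d) h1 with h | h
    · left
      exact ⟨hidxinj _ _ (by exact_mod_cast h.1), hidxinj _ _ (by exact_mod_cast h.2)⟩
    · right
      exact ⟨hidxinj _ _ (by exact_mod_cast h.1), hidxinj _ _ (by exact_mod_cast h.2)⟩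
  · intro p a0 sg d b0 b1 b2 E s π hπ hp ha0 ha0' hsg hsg' hd hd' hb0 hb0' hb1 hb1' hb2 hb2' hE hE'
      hs hs' a
    obtain ⟨i, hi⟩ := hg a (quadSet M V p a0 (-sg) 0) (quadSet_mem hp)
      (quadSet M V p (a0 + d) (-sg) 0) (quadSet_mem hp)
      (quadSet M V p b0 (-b1) b2) (quadSet_mem hp)
      (quadSet M V p (b0 + E) (-(b1 + s)) b2) (quadSet_mem hp) π hπ
    refine ⟨i, ?_⟩
    show g a i = _
    rw [hi]
    have hc0 : (0 : ℤ) ≤ (cc (a, i) : ℤ) := by positivity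
    have hcM : (cc (a, i) : ℤ) ≤ (M : ℤ) := by exact_mod_cast hccle (a, i)
    have hVz : (V : ℤ) = ((M : ℤ) + 2) ^ 2 := by rw [hV]; push_cast; ring
    set c : ℤ := (cc (a, i) : ℤ) with hc
    have hcv : (((cF (a, i) : Fin (M + 1)) : ℕ) : ℤ) = c := rfl
    have hc2 : c ^ 2 ≤ (M : ℤ) ^ 2 := pow_le_pow_left₀ hc0 hcM 2
    have hM0 : (0 : ℤ) ≤ M := by positivity
    -- bounds of products
    have k1 : c * sg ≤ M * p := mul_le_mul hcM hsg'.le hsg hM0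
    have k1' : 0 ≤ c * sg := mul_nonneg hc0 hsg
    have k2 : c * b1 ≤ M * p := mul_le_mul hcM hb1'.le hb1 hM0
    have k2' : 0 ≤ c * b1 := mul_nonneg hc0 hb1
    have k3 : c * s ≤ M * p := mul_le_mul hcM hs'.le hs hM0
    have k3' : 0 ≤ c * s := mul_nonneg hc0 hs
    have k4 : c ^ 2 * b2 ≤ M ^ 2 * p := mul_le_mul hc2 hb2'.le hb2 (by positivity)
    have k4' : 0 ≤ c ^ 2 * b2 := mul_nonneg (by positivity) hb2
    have kV : p * (V : ℤ) = M ^ 2 * p + 4 * (M * p) + 4 * p := by rw [hVz]; ring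
    have kMp : 0 ≤ (M : ℤ) * p := by positivity
    have kM2p : 0 ≤ (M : ℤ) ^ 2 * p := by positivity
    unfold need
    rw [quadSet_cnt hp, quadSet_cnt hp, quadSet_cnt hp, quadSet_cnt hp]
    · rw [hcv]
      have e1 : a0 + -sg * c + 0 * c ^ 2 = a0 - c * sg := by ring
      have e2 : a0 + d + -sg * c + 0 * c ^ 2 = a0 + d - c * sg := by ring
      have e3 : b0 + -b1 * c + b2 * c ^ 2 = b0 - c * b1 + c ^ 2 * b2 := by ring
      have e4 : b0 + E + -(b1 + s) * c + b2 * c ^ 2 = b0 + E - c * (b1 + s) + c ^ 2 * b2 := by ring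
      rw [e1, e2, e3, e4]
      congr 2 <;> ring
    all_goals (rw [hcv]; rw [kV]; linarith)

end Pool.Agent.Helper426.Sid
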