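import Mathlib
import Pool.Agent.Helper426.Sid.Types

set_option autoImplicit false

namespace Pool.Agent.Helper426.Sid

/-- all the data of the construction -/
structure Dat where
  n : ℕ
  M : ℤ
  cc : Fin 3 × Fin n → ℤ
  g : Fin 3 × Fin n → Ty
  p : ℤ
  p2 : ℤ
  ζ : ℤ
  K : ℤ
  hM : 0 < M
  hcc0 : ∀ i, 0 ≤ cc i
  hccM : ∀ i, cc i ≤ M
  hccS : ∀ a b c d, cc a + cc b = cc c + cc d → (a = c ∧ b = d) ∨ (a = d ∧ b = c)
  hg : ∀ (a0 sg d b0 b1 b2 E s : ℤ) (π : ℕ), π < 2 → 0 ≤ a0 → a0 < p → 0 ≤ sg → sg < p →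
      0 < d → d < p → 0 ≤ b0 → b0 < p → 0 ≤ b1 → b1 < p → 0 ≤ b2 → b2 < p → -p ≤ E → E < p →
      0 ≤ s → s < p →
      ∀ a : Fin 3, ∃ i : Fin n,
        g (a, i) = (toF3 (π + ((a0 + d - cc (a, i) * sg) / p - (a0 - cc (a, i) * sg) / p)),
          toF3 (1 + ((b0 + E - cc (a, i) * (b1 + s) + cc (a, i) ^ 2 * b2) / p
            - (b0 - cc (a, i) * b1 + cc (a, i) ^ 2 * b2) / p)))
  hp : Prime p
  hp0 : 0 < p
  hp3 : 3 ≤ p
  hp2 : Prime p2
  hp20 : 3 ≤ p2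
  hK : 0 ≤ K
  h1 : 2 * M * K + p2 + 2 < ζ
  h2 : 10 * (M + 1) * ζ ≤ p
  h3 : (M + 1) * K + M < p2

namespace Dat

variable (D : Dat)

def phi (l : ℤ) : ℤ := ((D.M + 1) * l ^ 2) % D.p2

def q (l : ℤ) (x : Fin 3 × Fin D.n) : ℤ :=
  2 * D.p * (l + (((D.g x).2 : ℕ) : ℤ)) + 2 * D.cc x * (D.ζ + l) + D.phi l + (((D.g x).1 : ℕ) : ℤ)

lemma phi_nonneg (l : ℤ) : 0 ≤ D.phi l := Int.emod_nonneg _ (by have := D.hp20; omega)
lemma phi_lt (l : ℤ) : D.phi l < D.p2 := Int.emod_lt_of_pos _ (by have := D.hp20; omega)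

lemma not_dvd_two {p : ℤ} (hp3 : 3 ≤ p) : ¬ p ∣ 2 := by
  intro h
  have := Int.le_of_dvd (by norm_num) h
  omega

lemma zeta_pos : 0 < D.ζ := by
  have := D.h1; have := D.hp20
  have : 0 ≤ 2 * D.M * D.K := by have := D.hM; have := D.hK; positivity
  linarith

lemma cc_inj {a b : Fin 3 × Fin D.n} (h : D.cc a = D.cc b) : a = b := by
  rcases D.hccS a a b b (by rw [h]) with h' | h'
  · exact h'.1
  · exact h'.1

lemma q_aux {l1 l2 l3 l4 : ℤ} {x1 x2 : Fin 3 × Fin D.n}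
    (h1 : 0 ≤ l1) (h1' : l1 < D.K) (h2 : 0 ≤ l2) (h2' : l2 < D.K)
    (h3 : 0 ≤ l3) (h3' : l3 < D.K) (h4 : 0 ≤ l4) (h4' : l4 < D.K)
    (hl : l1 + l2 = l3 + l4)
    (hR : D.phi l1 + D.phi l2 - D.phi l3 - D.phi l4
      + 2 * (D.cc x1 * l1 + D.cc x2 * l2 - D.cc x1 * l3 - D.cc x2 * l4) = 0) :
    (l1 = l3 ∧ l2 = l4) ∨ (l1 = l4 ∧ l2 = l3 ∧ x1 = x2) := by
  have hK3 := D.h3
  have hM := D.hM
  have hKpos : 0 < D.K := by linarith
  have hMK : 0 ≤ D.M * D.K := by positivity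
  have a1 := D.hcc0 x1
  have a2 := D.hcc0 x2
  have b1 := D.hccM x1
  have b2 := D.hccM x2
  have e1 : D.p2 * (((D.M + 1) * l1 ^ 2) / D.p2) + D.phi l1 = (D.M + 1) * l1 ^ 2 := Int.mul_ediv_add_emod _ _
  have e2 : D.p2 * (((D.M + 1) * l2 ^ 2) / D.p2) + D.phi l2 = (D.M + 1) * l2 ^ 2 := Int.mul_ediv_add_emod _ _
  have e3 : D.p2 * (((D.M + 1) * l3 ^ 2) / D.p2) + D.phi l3 = (D.M + 1) * l3 ^ 2 := Int.mul_ediv_add_emod _ _
  have e4 : D.p2 * (((D.M + 1) * l4 ^ 2) / D.p2) + D.phi l4 = (D.M + 1) * l4 ^ 2 := Int.mul_ediv_add_emod _ _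
  have hdvd : D.p2 ∣ (D.M + 1) * (l1 ^ 2 + l2 ^ 2 - l3 ^ 2 - l4 ^ 2)
      + 2 * (D.cc x1 * l1 + D.cc x2 * l2 - D.cc x1 * l3 - D.cc x2 * l4) := by
    refine ⟨((D.M + 1) * l1 ^ 2) / D.p2 + ((D.M + 1) * l2 ^ 2) / D.p2 - ((D.M + 1) * l3 ^ 2) / D.p2
      - ((D.M + 1) * l4 ^ 2) / D.p2, ?_⟩
    linear_combination -e1 - e2 + e3 + e4 + hR
  have hGK : ∀ u : ℤ, -D.K < u → u < D.K → |(D.M + 1) * u + (D.cc x1 - D.cc x2)| < D.p2 := by
    intro u hu1 hu2
    have k1 : (D.M + 1) * u ≤ (D.M + 1) * D.K := by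
      apply mul_le_mul_of_nonneg_left hu2.le; linarith
    have k2 : (D.M + 1) * (-D.K) ≤ (D.M + 1) * u := by
      apply mul_le_mul_of_nonneg_left hu1.le; linarith
    rw [abs_lt]; constructor <;> nlinarith
  have hKp2 : D.K < D.p2 := by nlinarith
  rcases et_core D.hp2 (not_dvd_two D.hp20) hl hdvd
    (by rw [abs_lt]; constructor <;> linarith) (hGK _ (by linarith) (by linarith)) with h5 | h5
  · left; exact ⟨h5, by linarith⟩
  · right
    have hz : l1 - l4 = 0 := by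
      by_contra hne
      rcases lt_or_gt_of_ne hne with h | h
      · have : l1 - l4 ≤ -1 := by omega
        have : (D.M + 1) * (l1 - l4) ≤ (D.M + 1) * (-1) := by
          apply mul_le_mul_of_nonneg_left this; linarith
        linarith
      · have : 1 ≤ l1 - l4 := by omega
        have : (D.M + 1) * 1 ≤ (D.M + 1) * (l1 - l4) := by
          apply mul_le_mul_of_nonneg_left this; linarith
        linarith
    rw [hz] at h5
    exact ⟨by linarith, by linarith, D.cc_inj (by linarith)⟩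

lemma q_sidon {l1 l2 l3 l4 : ℤ} {x1 x2 x3 x4 : Fin 3 × Fin D.n}
    (h1 : 0 ≤ l1) (h1' : l1 < D.K) (h2 : 0 ≤ l2) (h2' : l2 < D.K)
    (h3 : 0 ≤ l3) (h3' : l3 < D.K) (h4 : 0 ≤ l4) (h4' : l4 < D.K)
    (h : D.q l1 x1 + D.q l2 x2 = D.q l3 x3 + D.q l4 x4) :
    (D.q l1 x1 = D.q l3 x3 ∧ D.q l2 x2 = D.q l4 x4) ∨
    (D.q l1 x1 = D.q l4 x4 ∧ D.q l2 x2 = D.q l3 x3) := by
  have hM := D.hM
  have hζ := D.zeta_pos
  have hp0 := D.hp0
  have H1 := D.h1
  have H2 := D.h2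
  have hKpos : 0 < D.K := by linarith
  -- bounds for the small part
  have hr : ∀ (l : ℤ) (x : Fin 3 × Fin D.n), 0 ≤ l → l < D.K →
      0 ≤ 2 * D.cc x * l + D.phi l + (((D.g x).1 : ℕ) : ℤ) ∧
      2 * D.cc x * l + D.phi l + (((D.g x).1 : ℕ) : ℤ) < D.ζ := by
    intro l x hl hl'
    have a1 := D.hcc0 x
    have a2 := D.hccM x
    have a3 := D.phi_nonneg l
    have a4 := D.phi_lt l
    have a5 : (((D.g x).1 : ℕ) : ℤ) ≤ 2 := by have := (D.g x).1.2; omega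
    have a6 : 0 ≤ D.cc x * l := mul_nonneg a1 hl
    have a7 : D.cc x * l ≤ D.M * D.K := mul_le_mul a2 hl'.le hl hM.le
    constructor
    · have : 0 ≤ 2 * D.cc x * l := by nlinarith
      positivity
    · nlinarith
  have r1 := hr l1 x1 h1 h1'
  have r2 := hr l2 x2 h2 h2'
  have r3 := hr l3 x3 h3 h3'
  have r4 := hr l4 x4 h4 h4'
  set R := (2 * D.cc x1 * l1 + D.phi l1 + (((D.g x1).1 : ℕ) : ℤ))
    + (2 * D.cc x2 * l2 + D.phi l2 + (((D.g x2).1 : ℕ) : ℤ))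
    - (2 * D.cc x3 * l3 + D.phi l3 + (((D.g x3).1 : ℕ) : ℤ))
    - (2 * D.cc x4 * l4 + D.phi l4 + (((D.g x4).1 : ℕ) : ℤ)) with hR
  set C := D.cc x1 + D.cc x2 - D.cc x3 - D.cc x4 with hC
  set L := (l1 + (((D.g x1).2 : ℕ) : ℤ)) + (l2 + (((D.g x2).2 : ℕ) : ℤ))
    - (l3 + (((D.g x3).2 : ℕ) : ℤ)) - (l4 + (((D.g x4).2 : ℕ) : ℤ)) with hL
  have heq : 2 * D.ζ * C + R = (2 * D.p) * (-L) := by
    rw [hC, hR, hL]
    unfold q at h
    linear_combination h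
  have hCb : |C| ≤ 2 * D.M := by
    have a1 := D.hcc0 x1; have a2 := D.hcc0 x2; have a3 := D.hcc0 x3; have a4 := D.hcc0 x4
    have b1 := D.hccM x1; have b2 := D.hccM x2; have b3 := D.hccM x3; have b4 := D.hccM x4
    rw [abs_le]; constructor <;> linarith
  have hRb : |R| < 2 * D.ζ := by
    rw [abs_lt]; constructor <;> linarith [r1.1, r1.2, r2.1, r2.2, r3.1, r3.2, r4.1, r4.2]
  have hMζ : 0 < D.M * D.ζ := by positivity
  have hsmall : |2 * D.ζ * C + R| < 2 * D.p := by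
    have k1 : |2 * D.ζ * C| ≤ 2 * D.ζ * (2 * D.M) := by
      rw [abs_mul, abs_of_pos (show (0 : ℤ) < 2 * D.ζ by linarith)]
      exact mul_le_mul_of_nonneg_left hCb (by linarith)
    have k2 := abs_add_le (2 * D.ζ * C) R
    nlinarith
  have h0 : 2 * D.ζ * C + R = 0 := Int.eq_zero_of_abs_lt_dvd ⟨_, heq⟩ hsmall
  have hL0 : L = 0 := by
    rw [h0] at heq
    have : (2 * D.p) ≠ 0 := by positivity
    rcases mul_eq_zero.1 heq.symm with h | h
    · exact absurd h this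
    · linarith
  have hR0 : R = 0 := Int.eq_zero_of_abs_lt_dvd (m := 2 * D.ζ) ⟨-C, by linarith⟩ hRb
  have hC0 : C = 0 := by
    rw [hR0] at h0
    have : (2 * D.ζ) ≠ 0 := by positivity
    rcases mul_eq_zero.1 (show 2 * D.ζ * C = 0 by linarith) with h | h
    · exact absurd h this
    · exact h
  rcases D.hccS x1 x2 x3 x4 (by linarith) with ⟨hx, hy⟩ | ⟨hx, hy⟩
  · subst hx; subst hy
    have hl : l1 + l2 = l3 + l4 := by linarith
    have hR' : D.phi l1 + D.phi l2 - D.phi l3 - D.phi l4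
      + 2 * (D.cc x1 * l1 + D.cc x2 * l2 - D.cc x1 * l3 - D.cc x2 * l4) = 0 := by
      rw [hR] at hR0; linarith
    rcases D.q_aux h1 h1' h2 h2' h3 h3' h4 h4' hl hR' with h5 | h5
    · left; rw [h5.1, h5.2]; exact ⟨rfl, rfl⟩
    · right; rw [h5.1, h5.2.1, h5.2.2]; exact ⟨rfl, rfl⟩
  · subst hx; subst hy
    have hl : l1 + l2 = l4 + l3 := by linarith
    have hR' : D.phi l1 + D.phi l2 - D.phi l4 - D.phi l3
      + 2 * (D.cc x1 * l1 + D.cc x2 * l2 - D.cc x1 * l4 - D.cc x2 * l3) = 0 := by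
      rw [hR] at hR0; linarith
    rcases D.q_aux h1 h1' h2 h2' h4 h4' h3 h3' hl hR' with h5 | h5
    · right; rw [h5.1, h5.2]; exact ⟨rfl, rfl⟩
    · left; rw [h5.1, h5.2.1, h5.2.2]; exact ⟨rfl, rfl⟩

lemma q_lower {l : ℤ} (x : Fin 3 × Fin D.n) (hl : 2 ≤ l) : 4 * D.p ≤ D.q l x := by
  unfold q
  have hp0 := D.hp0
  have a1 := D.hcc0 x
  have a3 := D.phi_nonneg l
  have hζ := D.zeta_pos
  have k1 : 0 ≤ 2 * D.cc x * (D.ζ + l) := by
    have : 0 ≤ D.ζ + l := by linarith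
    positivity
  have k2 : 0 ≤ (((D.g x).2 : ℕ) : ℤ) := by positivity
  have k3 : 0 ≤ (((D.g x).1 : ℕ) : ℤ) := by positivity
  have k4 : 2 * D.p * 2 ≤ 2 * D.p * (l + (((D.g x).2 : ℕ) : ℤ)) :=
    mul_le_mul_of_nonneg_left (by linarith) (by linarith)
  linarith

lemma q_upper {l : ℤ} (x : Fin 3 × Fin D.n) (hl0 : 0 ≤ l) (hl : l < D.K) :
    D.q l x ≤ 2 * D.p * (D.K + 1) + D.p := by
  unfold q
  have hp0 := D.hp0
  have hM := D.hM
  have a1 := D.hcc0 x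
  have a2 := D.hccM x
  have a3 := D.phi_lt l
  have hζ := D.zeta_pos
  have H1 := D.h1
  have H2 := D.h2
  have k0 : D.K ≤ D.ζ := by
    have : D.M * D.K ≥ 1 * D.K := mul_le_mul_of_nonneg_right (by omega) D.hK
    have := D.hp20
    have := D.hK
    nlinarith
  have k1 : D.cc x * (D.ζ + l) ≤ D.M * (2 * D.ζ) := by
    apply mul_le_mul a2 (by linarith) (by linarith) hM.le
  have k2 : (((D.g x).2 : ℕ) : ℤ) ≤ 2 := by have := (D.g x).2.2; omega
  have k3 : (((D.g x).1 : ℕ) : ℤ) ≤ 2 := by have := (D.g x).1.2; omega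
  have k4 : 2 * D.p * (l + (((D.g x).2 : ℕ) : ℤ)) ≤ 2 * D.p * (D.K + 1) :=
    mul_le_mul_of_nonneg_left (by omega) (by linarith)
  have k5 : D.p2 + 2 < D.ζ := by
    have : 0 ≤ 2 * D.M * D.K := by have := D.hK; positivity
    linarith
  nlinarith

/-- covering lemma -/
lemma covering {l X d : ℤ} (hl0 : 0 ≤ l) (hl : l < D.K) (hX : 2 * D.p * (l + 1) ≤ X)
    (hX' : X < 2 * D.p * (l + 2)) (hd : 0 < d) (hd' : d < D.p) :
    ∃ (x : Fin 3 × Fin D.n) (t t' : ℤ), 0 < t ∧ t < D.p ∧ 0 < t' ∧ t' < D.p ∧ t ≠ t' ∧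
      D.p * X + d + cf D.p t' = D.p * D.q l x + cf D.p t := by
  have hp0 := D.hp0
  have hM := D.hM
  have hζ := D.zeta_pos
  have H1 := D.h1
  have H2 := D.h2
  have H3 := D.h3
  have f0 := D.phi_nonneg l
  have f1 := D.phi_lt l
  have hKnn := D.hK
  have hMK : 0 ≤ 2 * D.M * D.K := by positivity
  have k5 : D.p2 + 2 < D.ζ := by linarith
  have k0 : D.K ≤ D.ζ := by nlinarith
  have hMζ : 0 ≤ D.M * D.ζ := by positivity
  set B := 2 * D.p * (l + 1) + D.phi l with hB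
  set E := (X - B) / 2 with hE
  set s := D.ζ + l with hs
  obtain ⟨π, hπ2, hπ⟩ : ∃ π : ℕ, π < 2 ∧ X - B = 2 * E + π := by
    refine ⟨((X - B) % 2).toNat, ?_, ?_⟩
    · omega
    · omega
  have hE1 : -D.p ≤ E := by
    have : -D.p2 ≤ X - B := by linarith
    have : -D.p2 ≤ 2 * E + 1 := by omega
    nlinarith
  have hE2 : E < D.p := by
    have : X - B < 2 * D.p := by nlinarith
    omega
  have hs0 : 0 < s := by linarith
  have hsp : s < D.p := by nlinarith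
  obtain ⟨h, k, hhk⟩ : ∃ h k : ℤ, 2 * d * h - 1 = D.p * k := by
    have hcop : IsCoprime (D.p) (2 * d) := by
      rw [D.hp.coprime_iff_not_dvd]
      intro hdv
      rcases D.hp.dvd_or_dvd hdv with h | h
      · exact not_dvd_two D.hp3 h
      · have := Int.le_of_dvd hd h
        linarith
    obtain ⟨a, b, hab⟩ := hcop
    exact ⟨b, -a, by linarith⟩
  obtain ⟨a0, sg, b0, b1, b2, ha0, ha0', hsg, hsg', hb0, hb0', hb1, hb1', hb2, hb2', hsgs, hcov⟩ :=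
    cover (p := D.p) (d := d) (E := E) (s := s) (h := h) hp0 hd hd' ⟨k, hhk⟩ hE1 hE2 hs0.le (M := D.M)
  have hMs : D.M * s ≤ D.p + E := by
    have e1 : D.M * s ≤ D.M * (2 * D.ζ) := mul_le_mul_of_nonneg_left (by linarith) hM.le
    have : -D.p2 ≤ 2 * E + 1 := by
      have : -D.p2 ≤ X - B := by linarith
      omega
    nlinarith
  have hty := D.hg a0 sg d b0 b1 b2 E s π hπ2 ha0 ha0' hsg hsg' hd hd' hb0 hb0' hb1 hb1' hb2 hb2'
    hE1 hE2 hs0.le hsp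
  choose i hi using hty
  have hcv := fun a : Fin 3 => hcov (D.cc (a, i a)) (D.hcc0 _) (D.hccM _) hMs
  choose t t' io j ht0 htp ht'0 ht'p hdv1 hdv2 hio hio01 hj hj3 hcf using hcv
  -- every candidate works
  have hwork : ∀ a, D.p * X + d + cf D.p (t' a) = D.p * D.q l (a, i a) + cf D.p (t a) := by
    intro a
    have hg1 : ((((D.g (a, i a)).1 : Fin 3) : ℕ) : ℤ) = π + io a := by
      rw [hi a, ← hio a]
      apply toF3_val
      · rcases hio01 a with h | h <;> rw [h] <;> omega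
      · rcases hio01 a with h | h <;> rw [h] <;> omega
    have hg2 : ((((D.g (a, i a)).2 : Fin 3) : ℕ) : ℤ) = 1 + j a := by
      rw [hi a, ← hj a]
      apply toF3_val
      · rcases hj3 a with h | h | h <;> rw [h] <;> norm_num
      · rcases hj3 a with h | h | h <;> rw [h] <;> norm_num
    unfold q
    rw [hg1, hg2]
    have := hcf a
    rw [← hs]
    have hXB : X = 2 * D.p * (l + 1) + D.phi l + 2 * E + π := by rw [hB] at hπ; linarith
    linear_combination (-1 : ℤ) * this + D.p * hXB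
  -- s is invertible
  have hsgnd : ¬ D.p ∣ sg := by
    intro hdv
    have : D.p ∣ s := by
      have h1 : D.p ∣ 2 * d * sg := Dvd.dvd.mul_left hdv _
      have := dvd_sub h1 hsgs
      simpa using this
    have := Int.le_of_dvd hs0 this
    linarith
  have hMp : D.M < D.p := by nlinarith
  have hinj : ∀ a b : Fin 3, D.p ∣ (D.cc (a, i a) - D.cc (b, i b)) * sg → a = b := by
    intro a b hab
    rcases D.hp.dvd_or_dvd hab with h | h
    · have a1 := D.hcc0 (a, i a)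
      have a2 := D.hccM (a, i a)
      have b1 := D.hcc0 (b, i b)
      have b2 := D.hccM (b, i b)
      have := Int.eq_zero_of_abs_lt_dvd h (by rw [abs_lt]; constructor <;> linarith)
      have := D.cc_inj (show D.cc (a, i a) = D.cc (b, i b) by linarith)
      exact congrArg Prod.fst this
    · exact absurd h hsgnd
  have hinj1 : ∀ a b : Fin 3, t' a = 0 → t' b = 0 → a = b := by
    intro a b ha hb
    apply hinj
    obtain ⟨u, hu⟩ := hdv1 a
    obtain ⟨v, hv⟩ := hdv1 b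
    rw [ha] at hu
    rw [hb] at hv
    exact ⟨u - v, by linear_combination hu - hv⟩
  have hinj2 : ∀ a b : Fin 3, t a = 0 → t b = 0 → a = b := by
    intro a b ha hb
    apply hinj
    obtain ⟨u, hu⟩ := hdv1 a
    obtain ⟨v, hv⟩ := hdv1 b
    obtain ⟨u', hu'⟩ := hdv2 a
    obtain ⟨v', hv'⟩ := hdv2 b
    rw [ha] at hu'
    rw [hb] at hv'
    exact ⟨u - v + u' - v', by linear_combination hu - hv + hu' - hv'⟩
  have hgood : ∃ a : Fin 3, t a ≠ 0 ∧ t' a ≠ 0 := by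
    by_contra hcon
    push Not at hcon
    have c0 : t 0 = 0 ∨ t' 0 = 0 := by by_cases h : t 0 = 0; exact Or.inl h; exact Or.inr (hcon 0 h)
    have c1 : t 1 = 0 ∨ t' 1 = 0 := by by_cases h : t 1 = 0; exact Or.inl h; exact Or.inr (hcon 1 h)
    have c2 : t 2 = 0 ∨ t' 2 = 0 := by by_cases h : t 2 = 0; exact Or.inl h; exact Or.inr (hcon 2 h)
    rcases c0 with c0 | c0 <;> rcases c1 with c1 | c1 <;> rcases c2 with c2 | c2
    · exact absurd (hinj2 0 1 c0 c1) (by decide)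
    · exact absurd (hinj2 0 1 c0 c1) (by decide)
    · exact absurd (hinj2 0 2 c0 c2) (by decide)
    · exact absurd (hinj1 1 2 c1 c2) (by decide)
    · exact absurd (hinj2 1 2 c1 c2) (by decide)
    · exact absurd (hinj1 0 2 c0 c2) (by decide)
    · exact absurd (hinj1 0 1 c0 c1) (by decide)
    · exact absurd (hinj1 0 1 c0 c1) (by decide)
  obtain ⟨a, hta, hta'⟩ := hgood
  refine ⟨(a, i a), t a, t' a, lt_of_le_of_ne (ht0 a) (Ne.symm hta), htp a,
    lt_of_le_of_ne (ht'0 a) (Ne.symm hta'), ht'p a, ?_, hwork a⟩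
  intro heq
  have hdd : D.p ∣ d := by
    obtain ⟨u', hu'⟩ := hdv2 a
    rw [heq] at hu'
    exact ⟨-u', by linarith⟩
  have := Int.le_of_dvd hd hdd
  linarith

end Dat

end Pool.Agent.Helper426.Sid
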