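import Mathlib
import Pool.Prelude.Def_F_cc0f52bc
import Pool.Agent.Helper426.Sid.Struct

set_option autoImplicit false

namespace Pool.Agent.Helper426.Sid

open Finset

/-- counting bound for Sidon sets through their differences -/
lemma sidon_card (S : Finset ℕ) (hS : IsSidon (S : Set ℕ)) (T : Finset ℤ)
    (h : ∀ x ∈ S, ∀ y ∈ S, x ≠ y → (x : ℤ) - y ∈ T) : (S.card - 1) ^ 2 ≤ T.card := by
  have h1 : S.offDiag.card ≤ T.card := by
    apply card_le_card_of_injOn (fun z : ℕ × ℕ => (z.1 : ℤ) - z.2)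
    · intro z hz
      rw [mem_coe, mem_offDiag] at hz
      exact mem_coe.2 (h _ hz.1 _ hz.2.1 hz.2.2)
    · intro z hz w hw hzw
      rw [mem_coe, mem_offDiag] at hz hw
      simp only at hzw
      have hsum : z.1 + w.2 = w.1 + z.2 := by omega
      rcases hS z.1 hz.1 w.1 hw.1 w.2 hw.2.1 z.2 hz.2.1 hsum with h' | h'
      · exact Prod.ext h'.1 h'.2.symm
      · exact absurd h'.1 hz.2.2
  rw [offDiag_card] at h1
  have h2 : (S.card - 1) ^ 2 ≤ S.card * S.card - S.card := by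
    rcases Nat.eq_zero_or_pos S.card with h0 | h0
    · rw [h0]; simp
    · obtain ⟨m, hm⟩ : ∃ m, S.card = m + 1 := ⟨S.card - 1, by omega⟩
      rw [hm]
      have : (m + 1) * (m + 1) - (m + 1) = m * (m + 1) := by
        have : (m + 1) * (m + 1) = m * (m + 1) + (m + 1) := by ring
        omega
      rw [this]
      simp only [Nat.add_sub_cancel]
      nlinarith
  omega

/-- any finite Sidon subset of `[1, N]` extends to a maximal one -/
lemma exists_maximal {N : ℕ} (A0 : Finset ℕ) (h0 : A0 ⊆ Icc 1 N) (hS : IsSidon (A0 : Set ℕ)) :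
    ∃ A : Finset ℕ, A0 ⊆ A ∧ A ⊆ Icc 1 N ∧ Set.IsMaximalSidonSetIn (A : Set ℕ) N := by
  classical
  set F := (Icc 1 N).powerset.filter (fun A : Finset ℕ => A0 ⊆ A ∧ IsSidon (A : Set ℕ)) with hF
  have hne : F.Nonempty := ⟨A0, by
    rw [hF, mem_filter, mem_powerset]; exact ⟨h0, Finset.Subset.refl _, hS⟩⟩
  obtain ⟨A, hA, hmax⟩ := exists_max_image F card hne
  rw [hF, mem_filter, mem_powerset] at hA
  refine ⟨A, hA.2.1, hA.1, ?_, hA.2.2, ?_⟩
  · intro x hx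
    have := hA.1 (mem_coe.1 hx)
    rw [mem_Icc] at this
    exact this
  · intro x hx hxA hSx
    have hxI : x ∈ Icc 1 N := by rw [mem_Icc]; exact hx
    have hxA' : x ∉ A := fun h => hxA (mem_coe.2 h)
    have hins : insert x A ∈ F := by
      rw [hF, mem_filter, mem_powerset]
      refine ⟨insert_subset hxI hA.1, hA.2.1.trans (subset_insert _ _), ?_⟩
      have e : ((insert x A : Finset ℕ) : Set ℕ) = (A : Set ℕ) ∪ {x} := by
        ext y; simp
      rw [e]; exact hSx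
    have := hmax _ hins
    rw [card_insert_of_notMem hxA'] at this
    omega

namespace Dat

variable (D : Dat)

def PC (y : ℤ) : Prop := ∃ t, 0 < t ∧ t < D.p ∧ y = cf D.p t
def PP (y : ℤ) : Prop := ∃ l x, 2 ≤ l ∧ l < D.K ∧ y = D.p * D.q l x

variable {D}

lemma PC.mod {y : ℤ} (h : D.PC y) : ∃ t, 0 < t ∧ t < D.p ∧ y = cf D.p t ∧ D.p ∣ y - t := by
  obtain ⟨t, h1, h2, h3⟩ := h
  refine ⟨t, h1, h2, h3, ⟨2 * (t ^ 2 % D.p), ?_⟩⟩
  rw [h3]; unfold cf; ring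

lemma PC.ndvd {y : ℤ} (h : D.PC y) : ¬ D.p ∣ y := by
  obtain ⟨t, h1, h2, h3, h4⟩ := h.mod
  intro hd
  have : D.p ∣ t := by
    have := dvd_sub hd h4
    simpa using this
  have := Int.le_of_dvd h1 this
  linarith

lemma PC.lt {y : ℤ} (h : D.PC y) : y < 2 * D.p ^ 2 := by
  obtain ⟨t, h1, h2, h3⟩ := h
  rw [h3]; exact cf_lt D.hp0 h2

lemma PC.pos {y : ℤ} (h : D.PC y) : 0 < y := by
  obtain ⟨t, h1, h2, h3⟩ := h
  rw [h3]
  unfold cf
  have := Int.emod_nonneg (t ^ 2) D.hp0.ne'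
  have := D.hp0
  positivity

lemma PP.dvd {y : ℤ} (h : D.PP y) : D.p ∣ y := by
  obtain ⟨l, x, h1, h2, h3⟩ := h
  exact ⟨_, h3⟩

lemma PP.ge {y : ℤ} (h : D.PP y) : 4 * D.p ^ 2 ≤ y := by
  obtain ⟨l, x, h1, h2, h3⟩ := h
  rw [h3]
  have := D.q_lower x h1
  have := D.hp0
  nlinarith

lemma PP.le {y : ℤ} (h : D.PP y) : y ≤ 2 * D.p ^ 2 * (D.K + 1) + D.p ^ 2 := by
  obtain ⟨l, x, h1, h2, h3⟩ := h
  rw [h3]
  have := D.q_upper x (by linarith) h2
  have := D.hp0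
  nlinarith

lemma CPCP {y1 y2 y3 y4 : ℤ} (h1 : D.PC y1) (h2 : D.PP y2) (h3 : D.PC y3) (h4 : D.PP y4)
    (h : y1 + y2 = y3 + y4) : y1 = y3 ∧ y2 = y4 := by
  obtain ⟨t1, a1, b1, c1, d1⟩ := h1.mod
  obtain ⟨t3, a3, b3, c3, d3⟩ := h3.mod
  have hd : D.p ∣ t1 - t3 := by
    obtain ⟨u1, hu1⟩ := d1
    obtain ⟨u3, hu3⟩ := d3
    obtain ⟨u2, hu2⟩ := h2.dvd
    obtain ⟨u4, hu4⟩ := h4.dvd
    exact ⟨u4 - u2 - u1 + u3, by linear_combination h - hu1 + hu3 - hu2 + hu4⟩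
  have := Int.eq_zero_of_abs_lt_dvd hd (by rw [abs_lt]; constructor <;> linarith)
  have ht : t1 = t3 := by linarith
  have : y1 = y3 := by rw [c1, c3, ht]
  exact ⟨this, by linarith⟩

lemma CPPP {y1 y2 y3 y4 : ℤ} (h1 : D.PC y1) (h2 : D.PP y2) (h3 : D.PP y3) (h4 : D.PP y4)
    (h : y1 + y2 = y3 + y4) : False := by
  apply h1.ndvd
  have : y1 = y3 + y4 - y2 := by linarith
  rw [this]
  exact dvd_sub (dvd_add h3.dvd h4.dvd) h2.dvd

lemma A_sidon {y1 y2 y3 y4 : ℤ} (h1 : D.PC y1 ∨ D.PP y1) (h2 : D.PC y2 ∨ D.PP y2)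
    (h3 : D.PC y3 ∨ D.PP y3) (h4 : D.PC y4 ∨ D.PP y4) (h : y1 + y2 = y3 + y4) :
    (y1 = y3 ∧ y2 = y4) ∨ (y1 = y4 ∧ y2 = y3) := by
  have hp0 := D.hp0
  have hp2 : 0 < D.p ^ 2 := by positivity
  rcases h1 with h1 | h1 <;> rcases h2 with h2 | h2 <;> rcases h3 with h3 | h3 <;>
    rcases h4 with h4 | h4
  · -- CC CC
    obtain ⟨t1, a1, b1, c1⟩ := h1
    obtain ⟨t2, a2, b2, c2⟩ := h2
    obtain ⟨t3, a3, b3, c3⟩ := h3
    obtain ⟨t4, a4, b4, c4⟩ := h4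
    rw [c1, c2, c3, c4] at h
    rcases cf_sidon D.hp hp0 (not_dvd_two D.hp3) a1.le b1 a2.le b2 a3.le b3 a4.le b4 h with h' | h'
    · left; rw [c1, c2, c3, c4, h'.1, h'.2]; exact ⟨rfl, rfl⟩
    · right; rw [c1, c2, c3, c4, h'.1, h'.2]; exact ⟨rfl, rfl⟩
  · exfalso; linarith [h1.lt, h2.lt, h3.pos, h4.ge]
  · exfalso; linarith [h1.lt, h2.lt, h3.ge, h4.pos]
  · exfalso; linarith [h1.lt, h2.lt, h3.ge, h4.ge]
  · exfalso; linarith [h1.pos, h2.ge, h3.lt, h4.lt]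
  · left; exact CPCP h1 h2 h3 h4 h
  · right
    have := CPCP h1 h2 h4 h3 (by linarith)
    exact this
  · exact (CPPP h1 h2 h3 h4 h).elim
  · exfalso; linarith [h1.ge, h2.pos, h3.lt, h4.lt]
  · right
    have := CPCP h2 h1 h3 h4 (by linarith)
    exact ⟨this.2, this.1⟩
  · left
    have := CPCP h2 h1 h4 h3 (by linarith)
    exact ⟨this.2, this.1⟩
  · exact (CPPP h2 h1 h3 h4 (by linarith)).elim
  · exfalso; linarith [h1.ge, h2.ge, h3.lt, h4.lt]
  · exact (CPPP h3 h4 h1 h2 (by linarith)).elim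
  · exact (CPPP h4 h3 h1 h2 (by linarith)).elim
  · obtain ⟨l1, x1, a1, b1, c1⟩ := h1
    obtain ⟨l2, x2, a2, b2, c2⟩ := h2
    obtain ⟨l3, x3, a3, b3, c3⟩ := h3
    obtain ⟨l4, x4, a4, b4, c4⟩ := h4
    have hq : D.q l1 x1 + D.q l2 x2 = D.q l3 x3 + D.q l4 x4 := by
      have : D.p * (D.q l1 x1 + D.q l2 x2) = D.p * (D.q l3 x3 + D.q l4 x4) := by
        rw [c1, c2, c3, c4] at h; linarith
      exact mul_left_cancel₀ hp0.ne' this
    rcases D.q_sidon (by linarith) b1 (by linarith) b2 (by linarith) b3 (by linarith) b4 hq with h' | h'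
    · left; rw [c1, c2, c3, c4, h'.1, h'.2]; exact ⟨rfl, rfl⟩
    · right; rw [c1, c2, c3, c4, h'.1, h'.2]; exact ⟨rfl, rfl⟩

variable (D)

/-- the partial Sidon set -/
noncomputable def A0 : Finset ℕ := by
  classical
  exact ((Ioo (0 : ℤ) D.p).image (fun t => (cf D.p t).toNat)) ∪
    (((Ico (2 : ℤ) D.K) ×ˢ (univ : Finset (Fin 3 × Fin D.n))).image
      (fun z => (D.p * D.q z.1 z.2).toNat))

lemma mem_A0 {y : ℕ} : y ∈ D.A0 ↔ D.PC (y : ℤ) ∨ D.PP (y : ℤ) := by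
  classical
  unfold A0
  rw [mem_union, mem_image, mem_image]
  apply or_congr
  · constructor
    · rintro ⟨t, ht, rfl⟩
      rw [mem_Ioo] at ht
      exact ⟨t, ht.1, ht.2, Int.toNat_of_nonneg (cf_nonneg D.hp0 ht.1.le)⟩
    · rintro ⟨t, h1, h2, h3⟩
      exact ⟨t, by rw [mem_Ioo]; exact ⟨h1, h2⟩, by rw [← h3]; simp⟩
  · constructor
    · rintro ⟨z, hz, rfl⟩
      rw [mem_product, mem_Ico] at hz
      refine ⟨z.1, z.2, hz.1.1, hz.1.2, Int.toNat_of_nonneg ?_⟩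
      have := D.q_lower z.2 hz.1.1
      have := D.hp0
      nlinarith
    · rintro ⟨l, x, h1, h2, h3⟩
      refine ⟨(l, x), ?_, ?_⟩
      · rw [mem_product, mem_Ico]; exact ⟨⟨h1, h2⟩, mem_univ _⟩
      · show (D.p * D.q l x).toNat = y
        rw [← h3]; simp

lemma card_A0 : D.A0.card ≤ D.p.toNat + D.K.toNat * (3 * D.n) := by
  classical
  unfold A0
  refine (card_union_le _ _).trans ?_
  apply add_le_add
  · refine card_image_le.trans ?_
    rw [Int.card_Ioo]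
    have := D.hp0
    omega
  · refine card_image_le.trans ?_
    rw [card_product, Int.card_Ico]
    have h1 : (univ : Finset (Fin 3 × Fin D.n)).card = 3 * D.n := by simp
    rw [h1]
    apply Nat.mul_le_mul_right
    have := D.hK
    omega

lemma A0_sidon : IsSidon (D.A0 : Set ℕ) := by
  intro i1 hi1 j1 hj1 i2 hi2 j2 hj2 h
  have k1 := D.mem_A0.1 (mem_coe.1 hi1)
  have k2 := D.mem_A0.1 (mem_coe.1 hi2)
  have k3 := D.mem_A0.1 (mem_coe.1 hj1)
  have k4 := D.mem_A0.1 (mem_coe.1 hj2)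
  rcases A_sidon k1 k2 k3 k4 (by exact_mod_cast h) with h' | h'
  · left; exact ⟨by exact_mod_cast h'.1, by exact_mod_cast h'.2⟩
  · right; exact ⟨by exact_mod_cast h'.1, by exact_mod_cast h'.2⟩

lemma A0_subset {N : ℕ} (hN : 2 * D.p ^ 2 * (D.K + 1) + D.p ^ 2 ≤ N) : D.A0 ⊆ Icc 1 N := by
  intro y hy
  rw [mem_A0] at hy
  rw [mem_Icc]
  have hp0 := D.hp0
  have hK := D.hK
  have hp2 : 0 < D.p ^ 2 := by positivity
  have hKp : 0 ≤ 2 * D.p ^ 2 * D.K := by positivity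
  rcases hy with hy | hy
  · have h1 := hy.pos
    have h2 := hy.lt
    constructor
    · omega
    · have : (y : ℤ) ≤ N := by nlinarith
      exact_mod_cast this
  · have h1 := hy.ge
    have h2 := hy.le
    constructor
    · have : (0 : ℤ) < y := by nlinarith
      omega
    · have : (y : ℤ) ≤ N := by linarith
      exact_mod_cast this

/-- every non-multiple of `p` in the middle range is blocked -/
lemma blocked {y : ℕ} (h1 : 6 * D.p ^ 2 ≤ (y : ℤ)) (h2 : (y : ℤ) < 2 * D.p ^ 2 * (D.K + 1))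
    (hnd : ¬ D.p ∣ (y : ℤ)) (A : Finset ℕ) (hA : D.A0 ⊆ A) (hy : y ∉ D.A0) (hyA : y ∈ A) :
    ¬ IsSidon (A : Set ℕ) := by
  intro hS
  have hp0 := D.hp0
  set X := (y : ℤ) / D.p with hX
  set d := (y : ℤ) % D.p with hd
  have hXd : D.p * X + d = y := Int.mul_ediv_add_emod _ _
  have hd0 : 0 ≤ d := Int.emod_nonneg _ hp0.ne'
  have hdp : d < D.p := Int.emod_lt_of_pos _ hp0
  have hd1 : 0 < d := by
    rcases lt_or_eq_of_le hd0 with h | h
    · exact h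
    · exfalso
      apply hnd
      rw [← hXd, ← h]
      simp
  have hX6 : 6 * D.p ≤ X := by
    by_contra hc
    push Not at hc
    have : X + 1 ≤ 6 * D.p := by omega
    nlinarith
  have hXK : X < 2 * D.p * (D.K + 1) := by
    by_contra hc
    push Not at hc
    nlinarith
  set l := X / (2 * D.p) - 1 with hl
  have h2p : 0 < 2 * D.p := by linarith
  have e := Int.mul_ediv_add_emod X (2 * D.p)
  have e1 := Int.emod_nonneg X h2p.ne'
  have e2 := Int.emod_lt_of_pos X h2p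
  have hl1 : 2 * D.p * (l + 1) ≤ X := by
    have : l + 1 = X / (2 * D.p) := by rw [hl]; ring
    rw [this]; linarith
  have hl2 : X < 2 * D.p * (l + 2) := by
    have : l + 2 = X / (2 * D.p) + 1 := by rw [hl]; ring
    rw [this]; linarith
  have hl2' : 2 ≤ l := by
    by_contra hc
    push Not at hc
    have : l + 2 ≤ 3 := by omega
    nlinarith
  have hlK : l < D.K := by
    by_contra hc
    push Not at hc
    have : 2 * D.p * (D.K + 1) ≤ 2 * D.p * (l + 1) := mul_le_mul_of_nonneg_left (by linarith) h2p.le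
    linarith
  obtain ⟨x, t, t', ht, htp, ht', htp', hne, heq⟩ := D.covering (by linarith) hlK hl1 hl2 hd1 hdp
  -- the three elements
  obtain ⟨u, hu⟩ : ∃ u : ℕ, (u : ℤ) = D.p * D.q l x := by
    refine ⟨(D.p * D.q l x).toNat, Int.toNat_of_nonneg ?_⟩
    have := D.q_lower x hl2'
    nlinarith
  obtain ⟨v, hv⟩ : ∃ v : ℕ, (v : ℤ) = cf D.p t :=
    ⟨(cf D.p t).toNat, Int.toNat_of_nonneg (cf_nonneg hp0 ht.le)⟩
  obtain ⟨w, hw⟩ : ∃ w : ℕ, (w : ℤ) = cf D.p t' :=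
    ⟨(cf D.p t').toNat, Int.toNat_of_nonneg (cf_nonneg hp0 ht'.le)⟩
  have hu' : u ∈ D.A0 := D.mem_A0.2 (Or.inr ⟨l, x, hl2', hlK, hu⟩)
  have hv' : v ∈ D.A0 := D.mem_A0.2 (Or.inl ⟨t, ht, htp, hv⟩)
  have hw' : w ∈ D.A0 := D.mem_A0.2 (Or.inl ⟨t', ht', htp', hw⟩)
  have hsum : y + w = u + v := by
    have : (y : ℤ) + w = u + v := by rw [hu, hv, hw, ← hXd]; exact heq
    exact_mod_cast this
  rcases hS y (mem_coe.2 hyA) u (mem_coe.2 (hA hu')) w (mem_coe.2 (hA hw')) v (mem_coe.2 (hA hv')) hsum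
    with h' | h'
  · exact hy (h'.1 ▸ hu')
  · exact hy (h'.1 ▸ hv')

/-- main finite statement -/
theorem main {N : ℕ} (hN : 2 * D.p ^ 2 * (D.K + 1) + D.p ^ 2 ≤ N)
    (hN' : (N : ℤ) < 2 * D.p ^ 2 * (D.K + 5)) (hKp : D.K ≤ D.p) (hp16 : 16 ≤ D.p) :
    ∃ A : Finset ℕ, A ⊆ Icc 1 N ∧ Set.IsMaximalSidonSetIn (A : Set ℕ) N ∧
      A.card ≤ (3 * D.n + 20) * D.p.toNat := by
  classical
  obtain ⟨A, hA0, hAN, hAmax⟩ := exists_maximal D.A0 (D.A0_subset hN) D.A0_sidon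
  refine ⟨A, hAN, hAmax, ?_⟩
  have hS := hAmax.2.1
  have hp0 := D.hp0
  have hK := D.hK
  obtain ⟨P, hP⟩ : ∃ P : ℕ, D.p = P := ⟨D.p.toNat, (Int.toNat_of_nonneg hp0.le).symm⟩
  have hP16 : 16 ≤ P := by rw [hP] at hp16; exact_mod_cast hp16
  have hPt : D.p.toNat = P := by rw [hP]; simp
  set S1 := A.filter (fun y : ℕ => (y : ℤ) < 6 * D.p ^ 2) with hS1
  set S2 := A.filter (fun y : ℕ => D.p ∣ (y : ℤ)) with hS2
  set S3 := A.filter (fun y : ℕ => 2 * D.p ^ 2 * (D.K + 1) ≤ (y : ℤ)) with hS3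
  have hsub : ∀ S : Finset ℕ, S ⊆ A → IsSidon (S : Set ℕ) := by
    intro S hSA i1 h1 j1 h2 i2 h3 j2 h4
    exact hS i1 (hSA h1) j1 (hSA h2) i2 (hSA h3) j2 (hSA h4)
  have hcov : A ⊆ D.A0 ∪ (S1 ∪ (S2 ∪ S3)) := by
    intro y hy
    by_contra hcon
    rw [mem_union, mem_union, mem_union, hS1, hS2, hS3, mem_filter, mem_filter, mem_filter] at hcon
    push Not at hcon
    obtain ⟨c0, c1, c2, c3⟩ := hcon
    exact D.blocked (c1 hy) (c3 hy) (c2 hy) A hA0 c0 hy hS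
  have hc := card_le_card hcov
  have hc2 : (D.A0 ∪ (S1 ∪ (S2 ∪ S3))).card ≤ D.A0.card + (S1.card + (S2.card + S3.card)) := by
    refine (card_union_le _ _).trans (Nat.add_le_add_left ?_ _)
    refine (card_union_le _ _).trans (Nat.add_le_add_left ?_ _)
    exact card_union_le _ _
  have hA0c := D.card_A0
  have hNb : (N : ℤ) < D.p * (3 * D.p ^ 2) := by
    have k1 : 2 * D.p ^ 2 * (D.K + 5) ≤ 2 * D.p ^ 2 * (D.p + 5) :=
      mul_le_mul_of_nonneg_left (by linarith) (by positivity)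
    have k2 : D.p ^ 2 * 16 ≤ D.p ^ 2 * D.p := mul_le_mul_of_nonneg_left hp16 (by positivity)
    have k3 : 0 ≤ D.p ^ 2 := by positivity
    have e : D.p * (3 * D.p ^ 2) = 3 * (D.p ^ 2 * D.p) := by ring
    rw [e]
    linarith
  have hNc : (N : ℤ) < 2 * D.p ^ 2 * (D.K + 1) + 8 * D.p ^ 2 := by
    have e : 2 * D.p ^ 2 * (D.K + 5) = 2 * D.p ^ 2 * (D.K + 1) + 8 * D.p ^ 2 := by ring
    linarith
  -- S1
  have h1 : (S1.card - 1) ^ 2 ≤ 16 * P ^ 2 := by
    refine (sidon_card S1 (hsub _ (filter_subset _ _)) (Ioo (-(6 * D.p ^ 2)) (6 * D.p ^ 2)) ?_).trans ?_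
    · intro x hx y hy _
      rw [hS1, mem_filter] at hx hy
      rw [mem_Ioo]
      constructor <;> linarith [hx.2, hy.2, Int.natCast_nonneg x, Int.natCast_nonneg y]
    · rw [Int.card_Ioo, hP]
      have : (6 * (P : ℤ) ^ 2 - -(6 * (P : ℤ) ^ 2) - 1) ≤ ((12 * P ^ 2 : ℕ) : ℤ) := by push_cast; linarith
      have h' : (6 * (P : ℤ) ^ 2 - -(6 * (P : ℤ) ^ 2) - 1).toNat ≤ 12 * P ^ 2 := by omega
      nlinarith
  have h3 : (S3.card - 1) ^ 2 ≤ 16 * P ^ 2 := by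
    refine (sidon_card S3 (hsub _ (filter_subset _ _)) (Ioo (-(8 * D.p ^ 2)) (8 * D.p ^ 2)) ?_).trans ?_
    · intro x hx y hy _
      rw [hS3, mem_filter] at hx hy
      have hx' := mem_Icc.1 (hAN hx.1)
      have hy' := mem_Icc.1 (hAN hy.1)
      have hx'' : (x : ℤ) ≤ N := by exact_mod_cast hx'.2
      have hy'' : (y : ℤ) ≤ N := by exact_mod_cast hy'.2
      rw [mem_Ioo]
      constructor <;> linarith [hx.2, hy.2]
    · rw [Int.card_Ioo, hP]
      have : (8 * (P : ℤ) ^ 2 - -(8 * (P : ℤ) ^ 2) - 1) ≤ ((16 * P ^ 2 : ℕ) : ℤ) := by push_cast; linarith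
      omega
  have h2 : (S2.card - 1) ^ 2 ≤ 16 * P ^ 2 := by
    refine (sidon_card S2 (hsub _ (filter_subset _ _))
      ((Icc (-(3 * D.p ^ 2)) (3 * D.p ^ 2)).image (fun m => D.p * m)) ?_).trans ?_
    · intro x hx y hy _
      rw [hS2, mem_filter] at hx hy
      obtain ⟨a, ha⟩ := hx.2
      obtain ⟨b, hb⟩ := hy.2
      have hx' := mem_Icc.1 (hAN hx.1)
      have hy' := mem_Icc.1 (hAN hy.1)
      have hx'' : (x : ℤ) ≤ N := by exact_mod_cast hx'.2
      have hy'' : (y : ℤ) ≤ N := by exact_mod_cast hy'.2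
      have ha0 : 0 ≤ a := by
        apply le_of_mul_le_mul_left _ hp0
        rw [mul_zero, ← ha]; positivity
      have hb0 : 0 ≤ b := by
        apply le_of_mul_le_mul_left _ hp0
        rw [mul_zero, ← hb]; positivity
      have ha1 : a < 3 * D.p ^ 2 := by
        apply lt_of_mul_lt_mul_left _ hp0.le
        rw [← ha]; linarith
      have hb1 : b < 3 * D.p ^ 2 := by
        apply lt_of_mul_lt_mul_left _ hp0.le
        rw [← hb]; linarith
      rw [mem_image]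
      refine ⟨a - b, ?_, ?_⟩
      · rw [mem_Icc]; constructor <;> linarith
      · rw [ha, hb]; ring
    · refine card_image_le.trans ?_
      rw [Int.card_Icc, hP]
      have h' : (3 * (P : ℤ) ^ 2 + 1 - -(3 * (P : ℤ) ^ 2)) ≤ ((16 * P ^ 2 : ℕ) : ℤ) := by
        push_cast; nlinarith
      omega
  have hroot : ∀ m : ℕ, (m - 1) ^ 2 ≤ 16 * P ^ 2 → m ≤ 4 * P + 1 := by
    intro m hm
    have : (m - 1) ^ 2 ≤ (4 * P) ^ 2 := by rw [mul_pow]; simpa using hm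
    have := (Nat.pow_le_pow_iff_left (by norm_num : (2 : ℕ) ≠ 0)).1 this
    omega
  have k1 := hroot _ h1
  have k2 := hroot _ h2
  have k3 := hroot _ h3
  have hKP : D.K.toNat ≤ P := by
    rw [hP] at hKp; omega
  have hKn : D.K.toNat * (3 * D.n) ≤ P * (3 * D.n) := Nat.mul_le_mul_right _ hKP
  rw [hPt] at hA0c ⊢
  have e : (3 * D.n + 20) * P = P * (3 * D.n) + 20 * P := by ring
  rw [e]
  omega

end Dat

end Pool.Agent.Helper426.Sid
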