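import Mathlib
import Pool.Prelude.Def_F_cc0f52bc
import Pool.Agent.Helper426.Sid.Assemble

set_option autoImplicit false

namespace Pool.Agent.Helper426.Sid

open Finset Filter Asymptotics

lemma param {n M : ℕ} (cc : Fin 3 × Fin n → ℕ) (g : Fin 3 × Fin n → Ty)
    (hM : 0 < M) (hccM : ∀ i, cc i ≤ M)
    (hccS : ∀ a b c d, cc a + cc b = cc c + cc d → (a = c ∧ b = d) ∨ (a = d ∧ b = c))
    (hg : ∀ (p a0 sg d b0 b1 b2 E s : ℤ) (π : ℕ), π < 2 → 0 < p → 0 ≤ a0 → a0 < p → 0 ≤ sg → sg < p →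
      0 < d → d < p → 0 ≤ b0 → b0 < p → 0 ≤ b1 → b1 < p → 0 ≤ b2 → b2 < p → -p ≤ E → E < p →
      0 ≤ s → s < p →
      ∀ a : Fin 3, ∃ i : Fin n,
        g (a, i) = (toF3 (π + ((a0 + d - (cc (a, i) : ℤ) * sg) / p - (a0 - (cc (a, i) : ℤ) * sg) / p)),
          toF3 (1 + ((b0 + E - (cc (a, i) : ℤ) * (b1 + s) + (cc (a, i) : ℤ) ^ 2 * b2) / p
            - (b0 - (cc (a, i) : ℤ) * b1 + (cc (a, i) : ℤ) ^ 2 * b2) / p))))
    (N x : ℕ) (hx1 : 256 * (200 * (M + 1) ^ 2) ≤ x) (hx2 : 10 * (M + 1) * (5 * M + 20) ≤ x)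
    (hx3 : 200 * (M + 1) ^ 2 * N ≤ x ^ 3) (hx4 : (x - 1) ^ 3 < 200 * (M + 1) ^ 2 * N) :
    ∃ A : Finset ℕ, A ⊆ Icc 1 N ∧ Set.IsMaximalSidonSetIn (A : Set ℕ) N ∧
      A.card ≤ (3 * n + 20) * (2 * x) := by
  have hMM : 1 ≤ (M + 1) ^ 2 := Nat.one_le_pow _ _ (by omega)
  have hx16 : 16 ≤ x := by nlinarith
  obtain ⟨p, hp, hxp, hpx⟩ := Nat.exists_prime_lt_and_le_two_mul x (by omega)
  have hpZ : Prime (p : ℤ) := Nat.prime_iff_prime_int.1 hp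
  have hp0 : (0 : ℤ) < p := by exact_mod_cast hp.pos
  obtain ⟨W, hW⟩ : ∃ W : ℤ, W = (M : ℤ) + 1 := ⟨_, rfl⟩
  have hMz : (0 : ℤ) < M := by exact_mod_cast hM
  have hWpos : 0 < W := by linarith
  -- K
  set K : ℤ := (N : ℤ) / (2 * (p : ℤ) ^ 2) - 4 with hK
  have hpp : (0 : ℤ) < 2 * (p : ℤ) ^ 2 := by positivity
  have e1 := Int.mul_ediv_add_emod (N : ℤ) (2 * (p : ℤ) ^ 2)
  have e2 := Int.emod_nonneg (N : ℤ) hpp.ne'
  have e3 := Int.emod_lt_of_pos (N : ℤ) hpp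
  have hdivK : (N : ℤ) / (2 * (p : ℤ) ^ 2) = K + 4 := by rw [hK]; ring
  rw [hdivK] at e1
  have hNlow : 2 * (p : ℤ) ^ 2 * (K + 4) ≤ N := by linarith
  have hNup : (N : ℤ) < 2 * (p : ℤ) ^ 2 * (K + 5) := by
    have : 2 * (p : ℤ) ^ 2 * (K + 5) = 2 * (p : ℤ) ^ 2 * (K + 4) + 2 * (p : ℤ) ^ 2 := by ring
    linarith
  -- N is large
  have hN32 : 32 * x ^ 2 ≤ N := by
    by_contra hc
    push Not at hc
    obtain ⟨y, rfl⟩ : ∃ y, x = y + 1 := ⟨x - 1, by omega⟩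
    simp only [Nat.add_sub_cancel] at hx4
    have hy : 15 ≤ y := by omega
    have f1 : 200 * (M + 1) ^ 2 * N ≤ 200 * (M + 1) ^ 2 * (32 * (y + 1) ^ 2) :=
      Nat.mul_le_mul_left _ hc.le
    have f2 : 8 * (200 * (M + 1) ^ 2 * (32 * (y + 1) ^ 2)) ≤ (y + 1) ^ 3 := by
      have : 256 * (200 * (M + 1) ^ 2) * (y + 1) ^ 2 ≤ (y + 1) * (y + 1) ^ 2 :=
        Nat.mul_le_mul_right _ hx1
      nlinarith
    have f3 : (y + 1) ^ 3 ≤ 8 * y ^ 3 := by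
      have : (y + 1) ^ 3 ≤ (2 * y) ^ 3 := Nat.pow_le_pow_left (by omega) 3
      rw [mul_pow] at this
      linarith
    omega
  have hK0 : 0 ≤ K := by
    by_contra hc
    push Not at hc
    have f1 : (N : ℤ) < 2 * (p : ℤ) ^ 2 * 4 := by
      have : 2 * (p : ℤ) ^ 2 * (K + 5) ≤ 2 * (p : ℤ) ^ 2 * 4 :=
        mul_le_mul_of_nonneg_left (by omega) hpp.le
      linarith
    have f2 : N < 8 * p ^ 2 := by
      have : (N : ℤ) < ((8 * p ^ 2 : ℕ) : ℤ) := by push_cast; linarith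
      exact_mod_cast this
    have f3 : p ^ 2 ≤ (2 * x) ^ 2 := Nat.pow_le_pow_left hpx 2
    nlinarith
  -- K small
  have hKp : 400 * W ^ 2 * K ≤ p := by
    have g1 : (200 * W ^ 2) * (N : ℤ) ≤ (p : ℤ) ^ 3 := by
      have k1 : 200 * (M + 1) ^ 2 * N ≤ p ^ 3 := hx3.trans (Nat.pow_le_pow_left hxp.le 3)
      have k2 : ((200 * (M + 1) ^ 2 * N : ℕ) : ℤ) ≤ ((p ^ 3 : ℕ) : ℤ) := by exact_mod_cast k1
      push_cast at k2
      rw [hW]; exact k2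
    have g2 : (200 * W ^ 2) * (2 * (p : ℤ) ^ 2 * K) ≤ (200 * W ^ 2) * N := by
      apply mul_le_mul_of_nonneg_left _ (by positivity)
      have : 2 * (p : ℤ) ^ 2 * (K + 4) = 2 * (p : ℤ) ^ 2 * K + 8 * (p : ℤ) ^ 2 := by ring
      linarith
    have g3 : (p : ℤ) ^ 2 * (400 * W ^ 2 * K) ≤ (p : ℤ) ^ 2 * p := by nlinarith
    exact le_of_mul_le_mul_left g3 (by positivity)
  -- zeta
  set ζ : ℤ := (p : ℤ) / (10 * W) with hζ
  have h10W : 0 < 10 * W := by linarith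
  have z1 := Int.mul_ediv_add_emod (p : ℤ) (10 * W)
  have z2 := Int.emod_nonneg (p : ℤ) h10W.ne'
  have z3 := Int.emod_lt_of_pos (p : ℤ) h10W
  rw [← hζ] at z1
  have hζ1 : 10 * W * ζ ≤ p := by linarith
  have hζ2 : (p : ℤ) < 10 * W * (ζ + 1) := by
    have : 10 * W * (ζ + 1) = 10 * W * ζ + 10 * W := by ring
    linarith
  have hζbig : 5 * (M : ℤ) + 20 ≤ ζ := by
    rw [hζ]
    apply Int.le_ediv_of_mul_le h10W
    have : 10 * (M + 1) * (5 * M + 20) ≤ p := hx2.trans hxp.le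
    have : ((10 * (M + 1) * (5 * M + 20) : ℕ) : ℤ) ≤ p := by exact_mod_cast this
    push_cast at this
    rw [hW]; linarith
  have hKζ : 40 * W * K ≤ ζ := by
    have g1 : 10 * W * (40 * W * K) < 10 * W * (ζ + 1) := by
      have : 10 * W * (40 * W * K) = 400 * W ^ 2 * K := by ring
      linarith
    have := lt_of_mul_lt_mul_left g1 h10W.le
    omega
  -- p2
  obtain ⟨z, hz⟩ : ∃ z : ℕ, ζ = z := ⟨ζ.toNat, (Int.toNat_of_nonneg (by linarith)).symm⟩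
  have hz20 : 20 ≤ z := by omega
  obtain ⟨p2, hp2, hp21, hp22⟩ := Nat.exists_prime_lt_and_le_two_mul (z / 4) (by omega)
  have hp2Z : Prime (p2 : ℤ) := Nat.prime_iff_prime_int.1 hp2
  have hp2a : 2 * (p2 : ℤ) ≤ ζ := by rw [hz]; omega
  have hp2b : ζ - 3 < 4 * (p2 : ℤ) := by rw [hz]; omega
  have hWK : 0 ≤ W * K := by positivity
  have hMK : 0 ≤ (M : ℤ) * K := by positivity
  have hMKW : (M : ℤ) * K ≤ W * K := mul_le_mul_of_nonneg_right (by linarith) hK0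
  let D : Dat :=
    { n := n
      M := M
      cc := fun i => (cc i : ℤ)
      g := g
      p := p
      p2 := p2
      ζ := ζ
      K := K
      hM := hMz
      hcc0 := fun i => by positivity
      hccM := fun i => by exact_mod_cast hccM i
      hccS := fun a b c d h => hccS a b c d (by exact_mod_cast h)
      hg := fun a0 sg d b0 b1 b2 E s π h0 h1 h2 h3 h4 h5 h6 h7 h8 h9 h10 h11 h12 h13 h14 h15 h16 =>
        hg p a0 sg d b0 b1 b2 E s π h0 hp0 h1 h2 h3 h4 h5 h6 h7 h8 h9 h10 h11 h12 h13 h14 h15 h16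
      hp := hpZ
      hp0 := hp0
      hp3 := by
        have : 3 ≤ p := by omega
        exact_mod_cast this
      hp2 := hp2Z
      hp20 := by
        have : 3 ≤ p2 := by omega
        exact_mod_cast this
      hK := hK0
      h1 := by
        show 2 * (M : ℤ) * K + p2 + 2 < ζ
        nlinarith
      h2 := by
        show 10 * ((M : ℤ) + 1) * ζ ≤ p
        rw [← hW]; exact hζ1
      h3 := by
        show ((M : ℤ) + 1) * K + M < p2
        rw [← hW]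
        nlinarith }
  have hKleP : K ≤ (p : ℤ) := by
    have : K ≤ 400 * W ^ 2 * K := by
      have h1 : 1 * K ≤ (400 * W ^ 2) * K := mul_le_mul_of_nonneg_right (by nlinarith) hK0
      linarith
    linarith
  obtain ⟨A, hA1, hA2, hA3⟩ := Dat.main D (N := N)
    (by
      show 2 * (p : ℤ) ^ 2 * (K + 1) + (p : ℤ) ^ 2 ≤ N
      have : 2 * (p : ℤ) ^ 2 * (K + 4) = 2 * (p : ℤ) ^ 2 * (K + 1) + 6 * (p : ℤ) ^ 2 := by ring
      have : 0 ≤ (p : ℤ) ^ 2 := by positivity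
      linarith)
    hNup hKleP (by
      show (16 : ℤ) ≤ p
      have : 16 ≤ p := by omega
      exact_mod_cast this)
  refine ⟨A, hA1, hA2, hA3.trans ?_⟩
  have e1 : D.p.toNat = p := by show ((p : ℕ) : ℤ).toNat = p; simp
  have e2 : D.n = n := rfl
  rw [e1, e2]
  exact Nat.mul_le_mul_left _ hpx

theorem final : (fun N ↦ (Nf5bf336e.minMaximalSidonSet N : ℝ)) =O[atTop]
    (fun N ↦ (N : ℝ) ^ (1 / 3 : ℝ)) := by
  classical
  obtain ⟨n, M, cc, g, hn, hM, hccle, hccS, hg⟩ := types_exist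
  set Q : ℕ := 200 * (M + 1) ^ 2 with hQ
  have hQ1 : 1 ≤ Q := by
    have : 1 ≤ (M + 1) ^ 2 := Nat.one_le_pow _ _ (by omega)
    omega
  set X0 : ℕ := 256 * Q + 10 * (M + 1) * (5 * M + 20) with hX0
  apply IsBigO.of_bound ((4 * (3 * n + 20) : ℝ) * (Q : ℝ) ^ (1 / 3 : ℝ))
  rw [eventually_atTop]
  refine ⟨X0 ^ 3 + 1, ?_⟩
  intro N hN
  have hex : ∃ x : ℕ, Q * N ≤ x ^ 3 := ⟨Q * N, Nat.le_self_pow (by norm_num) _⟩
  set x := Nat.find hex with hxdef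
  have hx3 : Q * N ≤ x ^ 3 := Nat.find_spec hex
  have hX0pos : 256 ≤ X0 := by omega
  have hxX : X0 ≤ x := by
    by_contra hc
    push Not at hc
    have : x ^ 3 ≤ X0 ^ 3 := Nat.pow_le_pow_left hc.le 3
    have : N ≤ Q * N := Nat.le_mul_of_pos_left N (by omega)
    omega
  have hx4 : (x - 1) ^ 3 < Q * N := by
    have := Nat.find_min hex (m := x - 1) (by omega)
    push Not at this
    exact this
  obtain ⟨A, hA1, hA2, hA3⟩ := param cc g hM hccle hccS hg N x (by omega) (by omega) hx3 hx4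
  have hle : Nf5bf336e.minMaximalSidonSet N ≤ A.card := by
    unfold Nf5bf336e.minMaximalSidonSet
    apply Nat.sInf_le
    rw [mem_coe, Finset.mem_image]
    refine ⟨A, ?_, rfl⟩
    rw [mem_filter, mem_powerset]
    exact ⟨hA1, hA2⟩
  rw [Real.norm_of_nonneg (by positivity), Real.norm_of_nonneg (by positivity)]
  have h1 : ((Nf5bf336e.minMaximalSidonSet N : ℕ) : ℝ) ≤ (((3 * n + 20) * (2 * x) : ℕ) : ℝ) := by
    exact_mod_cast hle.trans hA3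
  have h2 : ((x : ℝ)) ≤ 2 * ((x - 1 : ℕ) : ℝ) := by
    have : x ≤ 2 * (x - 1) := by omega
    exact_mod_cast this
  have h3 : ((x - 1 : ℕ) : ℝ) ≤ ((Q : ℝ) * N) ^ (1 / 3 : ℝ) := by
    have k1 : (((x - 1 : ℕ) : ℝ)) ^ 3 ≤ (Q : ℝ) * N := by exact_mod_cast hx4.le
    have k2 : ((((x - 1 : ℕ) : ℝ)) ^ 3) ^ (1 / 3 : ℝ) ≤ ((Q : ℝ) * N) ^ (1 / 3 : ℝ) :=
      Real.rpow_le_rpow (by positivity) k1 (by norm_num)
    have k3 : ((((x - 1 : ℕ) : ℝ)) ^ 3) ^ (1 / 3 : ℝ) = ((x - 1 : ℕ) : ℝ) := by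
      rw [← Real.rpow_natCast, ← Real.rpow_mul (by positivity)]
      norm_num
    rw [k3] at k2
    exact k2
  rw [Real.mul_rpow (by positivity) (by positivity)] at h3
  calc ((Nf5bf336e.minMaximalSidonSet N : ℕ) : ℝ) ≤ (((3 * n + 20) * (2 * x) : ℕ) : ℝ) := h1
    _ = (3 * n + 20 : ℝ) * (2 * (x : ℝ)) := by push_cast; ring
    _ ≤ (3 * n + 20 : ℝ) * (2 * (2 * ((x - 1 : ℕ) : ℝ))) := by gcongr
    _ ≤ (3 * n + 20 : ℝ) * (2 * (2 * ((Q : ℝ) ^ (1 / 3 : ℝ) * (N : ℝ) ^ (1 / 3 : ℝ)))) := by gcongr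
    _ = (4 * (3 * n + 20) : ℝ) * (Q : ℝ) ^ (1 / 3 : ℝ) * (N : ℝ) ^ (1 / 3 : ℝ) := by ring

end Pool.Agent.Helper426.Sid
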